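import Mathlib

set_option autoImplicit false

open Ordinal

namespace Pool.Agent.Lib.Pf5c9aa

/-- The first uncountable ordinal `ω₁`, as a well-ordered type. -/
abbrev Om : Type := (ω₁ : Ordinal.{0}).ToType

/-- `x` assigns to every `α ∈ S` a strictly increasing sequence of length `ω` cofinal in `α`. -/
def IsLadder (S : Set Om) (x : Om → ℕ → Om) : Prop :=
  ∀ α ∈ S, StrictMono (x α) ∧ (∀ n, x α n < α) ∧ ∀ β < α, ∃ n, β ≤ x α n

/-- The set `{x α : α ∈ S}` of sequences, inside `ω → ω₁` with the lexicographic order; with the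
induced order this is the Baumgartner type given by `x`, with index set `S`. -/
def Baumgartner (S : Set Om) (x : Om → ℕ → Om) : Set (Lex (ℕ → Om)) :=
  {f | ∃ α ∈ S, f = toLex (x α)}

/-- A linear order is scattered if it contains no copy of the rationals. -/
def Scattered (L : Type) [LinearOrder L] : Prop := IsEmpty (ℚ ↪o L)

/-- A linear order is `σ`-scattered if it is a union of countably many scattered suborders. -/
def SigmaScattered (L : Type) [LinearOrder L] : Prop :=
  ∃ A : ℕ → Set L, (⋃ n, A n) = Set.univ ∧ ∀ n, Scattered (A n)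

/-! ### Forcing axioms -/

/-- `C` is a closed unbounded set of countable subsets of `Z`. -/
structure IsClubCountable {Z : Type} (C : Set (Set Z)) : Prop where
  countable : ∀ X ∈ C, X.Countable
  cofinal : ∀ Y : Set Z, Y.Countable → ∃ X ∈ C, Y ⊆ X
  closed : ∀ X : ℕ → Set Z, (∀ n, X n ∈ C) → Monotone X → (⋃ n, X n) ∈ C

section Forcing

variable {P : Type} [Preorder P]

/-- dense subsets of a poset -/
def PDense (D : Set P) : Prop := ∀ p, ∃ q ∈ D, q ≤ p

/-- filters on a poset -/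
structure PFilter (G : Set P) : Prop where
  nonempty : G.Nonempty
  up : ∀ p ∈ G, ∀ q, p ≤ q → q ∈ G
  dir : ∀ p ∈ G, ∀ q ∈ G, ∃ r ∈ G, r ≤ p ∧ r ≤ q

/-- `q` is `(X, P)`-generic, for a countable set `X` of conditions and sets of conditions: for
every dense set `D ∈ X`, `D ∩ X` is predense below `q`. -/
def PGeneric (X : Set (P ⊕ Set P)) (q : P) : Prop :=
  ∀ D : Set P, PDense D → Sum.inr D ∈ X → ∀ r ≤ q, ∃ d ∈ D, Sum.inl d ∈ X ∧ ∃ t, t ≤ r ∧ t ≤ d

/-- `P` is proper: for club many countable sets `X` of conditions and sets of conditions, every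
condition in `X` has an `(X, P)`-generic extension. -/
def Proper (P : Type) [Preorder P] : Prop :=
  ∃ C : Set (Set (P ⊕ Set P)), IsClubCountable C ∧
    ∀ X ∈ C, ∀ p, Sum.inl p ∈ X → ∃ q ≤ p, PGeneric X q

/-- `p ⊩ ξ ∈ N`, where `N : Om → Set P` is regarded as the name `{(ξ, a) : a ∈ N ξ}` of a subset
of `ω₁`. -/
def Forces (N : Om → Set P) (p : P) (ξ : Om) : Prop :=
  ∀ q ≤ p, ∃ r ≤ q, ∃ a ∈ N ξ, r ≤ a

/-- `p` forces that the named subset of `ω₁` is closed and unbounded. -/
def ForcesClub (N : Om → Set P) (p : P) : Prop :=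
  (∀ ξ, ∀ q ≤ p, ∃ r ≤ q, ∃ η, ξ < η ∧ Forces N r η) ∧
  ∀ δ, (∃ ξ, ξ < δ) → ∀ q ≤ p,
    (∀ ξ < δ, ∀ r ≤ q, ∃ s ≤ r, ∃ η, ξ < η ∧ η < δ ∧ Forces N s η) → Forces N q δ

/-- Every condition forces that the named subset of `ω₁` is stationary. -/
def ForcesStationary (N : Om → Set P) : Prop :=
  ∀ C : Om → Set P, ∀ p, ForcesClub C p → ∃ q ≤ p, ∃ δ, Forces N q δ ∧ Forces C q δ

end Forcing

/-- The forcing axiom `PFA⁺`: for every proper poset `P`, every family of `ℵ₁` dense sets and every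
name `N` for a stationary subset of `ω₁` there is a filter `G` meeting all these dense sets such
that `{ξ : ∃ p ∈ G, p ⊩ ξ ∈ N}` is stationary. -/
def PFAPlus : Prop :=
  ∀ (P : Type) [Preorder P], Nonempty P → Proper P →
    ∀ D : Om → Set P, (∀ i, PDense (D i)) →
    ∀ N : Om → Set P, ForcesStationary N →
    ∃ G : Set P, PFilter G ∧ (∀ i, (G ∩ D i).Nonempty) ∧
      IsStationary {ξ | ∃ p ∈ G, Forces N p ξ}

end Pool.Agent.Lib.Pf5c9aa
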