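import Mathlib
import Pool.Agent.Lib.Pf5c9aa.Defs

set_option autoImplicit false

open Ordinal Cardinal Set

namespace Pool.Agent.Lib.Pf5c9aa

theorem cof_Om : Order.cof Om ≠ ℵ₀ := by
  rw [Ordinal.cof_toType, Cardinal.cof_omega_one]
  exact (Cardinal.aleph0_lt_aleph_one).ne'

theorem exists_gt_of_countable {A : Set Om} (hA : A.Countable) : ∃ b, ∀ a ∈ A, a < b := by
  by_contra hcon
  push Not at hcon
  have hc : IsCofinal A := fun b => by
    obtain ⟨a, ha, hab⟩ := hcon b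
    exact ⟨a, ha, hab⟩
  have h1 := Order.cof_le hc
  rw [Ordinal.cof_toType, Cardinal.cof_omega_one] at h1
  have h2 : #A ≤ ℵ₀ := Cardinal.le_aleph0_iff_set_countable.2 hA
  exact absurd (h1.trans h2) (not_le.2 Cardinal.aleph0_lt_aleph_one)

theorem exists_gt' (a : Om) : ∃ b, a < b := by
  obtain ⟨b, hb⟩ := exists_gt_of_countable (countable_singleton a)
  exact ⟨b, hb a rfl⟩

instance : Nonempty Om := by
  obtain ⟨b, -⟩ := exists_gt_of_countable (A := ∅) countable_empty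
  exact ⟨b⟩

instance : NoMaxOrder Om := ⟨exists_gt'⟩

theorem countable_Iio (a : Om) : (Iio a).Countable := by
  have h1 : #Om = ℵ₁ := by
    rw [Cardinal.mk_toType, Ordinal.card_omega]
  have h2 := Cardinal.mk_Iio_lt a (by rw [h1, Cardinal.ord_aleph, Ordinal.type_toType])
  rwa [h1, ← Cardinal.succ_aleph0, Order.lt_succ_iff, Cardinal.le_aleph0_iff_set_countable] at h2

theorem countable_Iic (a : Om) : (Iic a).Countable := by
  have : Iic a = insert a (Iio a) := by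
    ext x; simp [le_iff_eq_or_lt]
  rw [this]
  exact (countable_Iio a).insert a

/-- least upper bounds of sequences -/
theorem exists_isLUB (f : ℕ → Om) : ∃ b, IsLUB (range f) b := by
  obtain ⟨b, hb⟩ := exists_gt_of_countable (countable_range f)
  have hne : (upperBounds (range f)).Nonempty := ⟨b, fun a ha => (hb a ha).le⟩
  refine ⟨wellFounded_lt.min _ hne, wellFounded_lt.min_mem _ hne, fun c hc => ?_⟩
  exact not_lt.1 (wellFounded_lt.not_lt_min _ hc)

theorem isClub_Ioi (a : Om) : IsClub (Ioi a) := by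
  refine ⟨?_, ?_⟩
  · intro d hd hne _ b hb
    obtain ⟨x, hx⟩ := hne
    exact lt_of_lt_of_le (hd hx) (hb.1 hx)
  · intro b
    obtain ⟨c, hc⟩ := exists_gt' (max a b)
    exact ⟨c, (le_max_left a b).trans_lt hc, ((le_max_right a b).trans_lt hc).le⟩

theorem isClub_Ici (a : Om) : IsClub (Ici a) := by
  refine ⟨?_, ?_⟩
  · intro d hd hne _ b hb
    obtain ⟨x, hx⟩ := hne
    exact le_trans (hd hx) (hb.1 hx)
  · intro b
    exact ⟨max a b, le_max_left a b, le_max_right a b⟩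

theorem IsClub.inter' {s t : Set Om} (hs : IsClub s) (ht : IsClub t) : IsClub (s ∩ t) :=
  hs.inter cof_Om ht

/-- a finite set below a least upper bound of a set is below an element of the set -/
theorem exists_of_isLUB {t : Set Om} {γ : Om} (hγ : IsLUB t γ) (hne : t.Nonempty) {F : Set Om}
    (hF : F.Finite) (hFγ : ∀ ξ ∈ F, ξ < γ) : ∃ τ ∈ t, ∀ ξ ∈ F, ξ < τ := by
  induction F, hF using Set.Finite.induction_on with
  | empty => obtain ⟨x, hx⟩ := hne; exact ⟨x, hx, by simp⟩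
  | @insert a F _ _ ih =>
    obtain ⟨τ, hτ, h⟩ := ih (fun ξ hξ => hFγ ξ (Or.inr hξ))
    obtain ⟨τ', hτ', h'⟩ := (lt_isLUB_iff hγ).1 (hFγ a (Or.inl rfl))
    rcases le_total τ τ' with hle | hle
    · refine ⟨τ', hτ', ?_⟩
      rintro ξ (rfl | hξ)
      · exact h'
      · exact (h ξ hξ).trans_le hle
    · refine ⟨τ, hτ, ?_⟩
      rintro ξ (rfl | hξ)
      · exact h'.trans_le hle
      · exact h ξ hξ

/-- diagonal intersections of clubs, for families indexed by objects with a finite support -/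
theorem isClub_diag {I : Type*} (supp : I → Set Om) (hfin : ∀ i, (supp i).Finite)
    (hc : ∀ γ, {i | ∀ ξ ∈ supp i, ξ < γ}.Countable) (C : I → Set Om) (hC : ∀ i, IsClub (C i)) :
    IsClub {γ | ∀ i, (∀ ξ ∈ supp i, ξ < γ) → γ ∈ C i} := by
  refine ⟨?_, ?_⟩
  · intro t ht hne _ γ hγ i hi
    obtain ⟨τ, hτ, hτ'⟩ := exists_of_isLUB hγ hne (hfin i) hi
    have h1 : IsLUB {x | x ∈ t ∧ τ ≤ x} γ := by
      refine ⟨fun x hx => hγ.1 hx.1, fun b hb => hγ.2 fun x hx => ?_⟩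
      rcases le_total τ x with h | h
      · exact hb ⟨hx, h⟩
      · exact h.trans (hb ⟨hτ, le_rfl⟩)
    refine (hC i).isLUB_mem (t := {x | x ∈ t ∧ τ ≤ x}) ?_ ⟨τ, hτ, le_rfl⟩ h1
    rintro x ⟨hx, hx'⟩
    exact ht hx i fun ξ hξ => (hτ' ξ hξ).trans_le hx'
  · intro a
    have step : ∀ γ : Om, ∃ γ', γ < γ' ∧ ∀ i, (∀ ξ ∈ supp i, ξ < γ) → γ' ∈ C i := by
      intro γ
      have hcount : Countable {i | ∀ ξ ∈ supp i, ξ < γ} := (hc γ).to_subtype
      have h1 : IsClub (⋂ i : {i | ∀ ξ ∈ supp i, ξ < γ}, C i.1) :=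
        IsClub.iInter_of_countable cof_Om fun i => hC i.1
      obtain ⟨γ', hγ', hle⟩ := (IsClub.inter' h1 (isClub_Ioi γ)).isCofinal γ
      refine ⟨γ', hγ'.2, fun i hi => ?_⟩
      have := hγ'.1
      rw [mem_iInter] at this
      exact this ⟨i, hi⟩
    choose nxt hlt hnxt using step
    let g : ℕ → Om := fun n => Nat.rec a (fun _ x => nxt x) n
    have hg : ∀ n, g (n + 1) = nxt (g n) := fun n => rfl
    have hmono : StrictMono g := strictMono_nat_of_lt_succ fun n => by rw [hg]; exact hlt _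
    obtain ⟨b, hb⟩ := exists_isLUB g
    refine ⟨b, ?_, hb.1 ⟨0, rfl⟩⟩
    intro i hi
    obtain ⟨_, ⟨n, rfl⟩, hn⟩ := exists_of_isLUB hb (range_nonempty g) (hfin i) hi
    have h1 : IsLUB (range fun m => g (n + m + 1)) b := by
      refine ⟨?_, ?_⟩
      · rintro _ ⟨m, rfl⟩; exact hb.1 ⟨n + m + 1, rfl⟩
      · intro c hc
        apply hb.2
        rintro _ ⟨m, rfl⟩
        exact (hmono.monotone (by omega : m ≤ n + m + 1)).trans (hc ⟨m, rfl⟩)
    refine (hC i).isLUB_mem ?_ (range_nonempty _) h1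
    rintro _ ⟨m, rfl⟩
    show g (n + m + 1) ∈ C i
    rw [hg]
    exact hnxt _ i fun ξ hξ => (hn ξ hξ).trans_le (hmono.monotone (by omega))

/-- pressing down, for functions into objects with a finite support -/
theorem fodor {I : Type*} (supp : I → Set Om) (hfin : ∀ i, (supp i).Finite)
    (hc : ∀ γ, {i | ∀ ξ ∈ supp i, ξ < γ}.Countable) {B : Set Om} (hB : IsStationary B)
    (f : Om → I) (hf : ∀ δ ∈ B, ∀ ξ ∈ supp (f δ), ξ < δ) :
    ∃ i, IsStationary {δ | δ ∈ B ∧ f δ = i} := by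
  by_contra hcon
  push Not at hcon
  have : ∀ i, ∃ C, IsClub C ∧ Disjoint {δ | δ ∈ B ∧ f δ = i} C := fun i =>
    not_isStationary_iff.1 (hcon i)
  choose C hC hdis using this
  obtain ⟨δ, hδ, hδ'⟩ := hB (isClub_diag supp hfin hc C hC)
  exact Set.disjoint_left.1 (hdis (f δ)) ⟨hδ, rfl⟩ (hδ' (f δ) (hf δ hδ))

/-! ### supports -/

theorem supp_om : ∀ γ : Om, {i : Om | ∀ ξ ∈ ({i} : Set Om), ξ < γ}.Countable := by
  intro γ
  have : {i : Om | ∀ ξ ∈ ({i} : Set Om), ξ < γ} = Iio γ := by ext i; simp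
  rw [this]
  exact countable_Iio γ

theorem supp_finset {I : Type*} (supp : I → Set Om)
    (hc : ∀ γ, {i | ∀ ξ ∈ supp i, ξ < γ}.Countable) (γ : Om) :
    {F : Finset I | ∀ ξ ∈ ⋃ i ∈ F, supp i, ξ < γ}.Countable := by
  have h1 := Set.countable_ofPred_finite_subset (hc γ)
  have h2 : {F : Finset I | ∀ ξ ∈ ⋃ i ∈ F, supp i, ξ < γ} ⊆
      (fun F : Finset I => (F : Set I)) ⁻¹' {t | t.Finite ∧ t ⊆ {i | ∀ ξ ∈ supp i, ξ < γ}} := by
    intro F hF
    refine ⟨F.finite_toSet, fun i hi ξ hξ => hF ξ ?_⟩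
    rw [mem_iUnion₂]
    exact ⟨i, hi, hξ⟩
  exact (h1.preimage_of_injOn Finset.coe_injective.injOn).mono h2

theorem supp_prod {I J : Type*} (supp : I → Set Om) (supp' : J → Set Om)
    (hc : ∀ γ, {i | ∀ ξ ∈ supp i, ξ < γ}.Countable)
    (hc' : ∀ γ, {i | ∀ ξ ∈ supp' i, ξ < γ}.Countable) (γ : Om) :
    {p : I × J | ∀ ξ ∈ supp p.1 ∪ supp' p.2, ξ < γ}.Countable := by
  refine ((hc γ).prod (hc' γ)).mono ?_
  rintro ⟨i, j⟩ h
  exact ⟨fun ξ hξ => h ξ (Or.inl hξ), fun ξ hξ => h ξ (Or.inr hξ)⟩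

/-- finite sets of ordinals -/
theorem supp_fin (γ : Om) : {F : Finset Om | ∀ ξ ∈ (F : Set Om), ξ < γ}.Countable := by
  refine (supp_finset (fun i : Om => ({i} : Set Om)) supp_om γ).mono ?_
  intro F hF ξ hξ
  rw [mem_iUnion₂] at hξ
  obtain ⟨i, hi, hξi⟩ := hξ
  rw [mem_singleton_iff] at hξi
  subst hξi
  exact hF _ hi

end Pool.Agent.Lib.Pf5c9aa
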