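import Mathlib
import Pool.Agent.Lib.Pf5c9aa.Club

set_option autoImplicit false

open Ordinal Cardinal Set

namespace Pool.Agent.Lib.Pf5c9aa

/-- ranges of ladders -/
structure LadSet (S : Set Om) (X : Om → Set Om) : Prop where
  lt : ∀ α ∈ S, ∀ ξ ∈ X α, ξ < α
  cof : ∀ α ∈ S, ∀ ρ < α, ∃ ξ ∈ X α, ρ < ξ
  fin : ∀ α ∈ S, ∀ ρ < α, (X α ∩ Iio ρ).Finite
  ne : ∀ α ∈ S, (X α).Nonempty

theorem LadSet.mono {S T : Set Om} {X : Om → Set Om} (h : LadSet S X) (hT : T ⊆ S) :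
    LadSet T X :=
  ⟨fun α hα => h.lt α (hT hα), fun α hα => h.cof α (hT hα), fun α hα => h.fin α (hT hα),
    fun α hα => h.ne α (hT hα)⟩

theorem LadSet.infinite {S : Set Om} {X : Om → Set Om} (h : LadSet S X) {α : Om} (hα : α ∈ S) :
    (X α).Infinite := by
  intro hfin
  obtain ⟨m, hm, hmax⟩ := hfin.exists_maximal (h.ne α hα)
  obtain ⟨ξ, hξ, hlt⟩ := h.cof α hα m (h.lt α hα m hm)
  exact absurd (hmax hξ hlt.le) (not_le.2 hlt)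

/-- the order of two ladders, in terms of their ranges -/
def slt (U V : Set Om) : Prop := ∃ ξ ∈ U, ξ ∉ V ∧ U ∩ Iio ξ = V ∩ Iio ξ

theorem slt_asymm {U V : Set Om} (h : slt U V) : ¬ slt V U := by
  rintro ⟨η, hη, hη', h2⟩
  obtain ⟨ξ, hξ, hξ', h1⟩ := h
  rcases lt_trichotomy ξ η with h3 | h3 | h3
  · have : ξ ∈ U ∩ Iio η := ⟨hξ, h3⟩
    rw [← h2] at this
    exact hξ' this.1
  · subst h3; exact hξ' hη
  · have : η ∈ V ∩ Iio ξ := ⟨hη, h3⟩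
    rw [← h1] at this
    exact hη' this.1

/-- restricting an equality of traces -/
theorem tr_mono {U V : Set Om} {τ σ ρ : Om} (h : U ∩ Iio τ = V ∩ Iio σ) (h1 : ρ ≤ τ)
    (h2 : ρ ≤ σ) : U ∩ Iio ρ = V ∩ Iio ρ := by
  ext ξ
  constructor
  · rintro ⟨hξ, hξ'⟩
    have : ξ ∈ U ∩ Iio τ := ⟨hξ, lt_of_lt_of_le hξ' h1⟩
    rw [h] at this
    exact ⟨this.1, hξ'⟩
  · rintro ⟨hξ, hξ'⟩
    have : ξ ∈ V ∩ Iio σ := ⟨hξ, lt_of_lt_of_le hξ' h2⟩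
    rw [← h] at this
    exact ⟨this.1, hξ'⟩

theorem slt_transfer' {U U' V V' : Set Om} {τ : Om} (h1 : U ∩ Iio τ = U' ∩ Iio τ)
    (h2 : V ∩ Iio τ = V' ∩ Iio τ) (h3 : U ∩ Iio τ ≠ V ∩ Iio τ) (h : slt U V) : slt U' V' := by
  obtain ⟨ξ, hξ, hξ', h4⟩ := h
  have h5 : ξ < τ := by
    by_contra hcon
    exact h3 (tr_mono h4 (not_lt.1 hcon) (not_lt.1 hcon))
  refine ⟨ξ, ?_, ?_, ?_⟩
  · have : ξ ∈ U ∩ Iio τ := ⟨hξ, h5⟩
    rw [h1] at this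
    exact this.1
  · intro h6
    have : ξ ∈ V' ∩ Iio τ := ⟨h6, h5⟩
    rw [← h2] at this
    exact hξ' this.1
  · rw [← tr_mono h1 h5.le h5.le, h4, tr_mono h2 h5.le h5.le]

theorem slt_transfer {U U' V V' : Set Om} {τ : Om} (h1 : U ∩ Iio τ = U' ∩ Iio τ)
    (h2 : V ∩ Iio τ = V' ∩ Iio τ) (h3 : U ∩ Iio τ ≠ V ∩ Iio τ) : slt U V ↔ slt U' V' :=
  ⟨slt_transfer' h1 h2 h3, slt_transfer' h1.symm h2.symm (by rw [← h1, ← h2]; exact h3)⟩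

theorem slt_gap {U V : Set Om} {τ σ : Om} (h : U ∩ Iio τ = V ∩ Iio σ) {e : Om} (he : e ∈ U)
    (h1 : τ ≤ e) (h2 : e < σ) : slt U V := by
  have hne : {ξ | ξ ∈ U ∧ τ ≤ ξ}.Nonempty := ⟨e, he, h1⟩
  obtain ⟨hm1, hm2⟩ := wellFounded_lt.min_mem _ hne
  have hm3 : ∀ ξ ∈ U, τ ≤ ξ → wellFounded_lt.min _ hne ≤ ξ := fun ξ h4 h5 =>
    not_lt.1 (wellFounded_lt.not_lt_min {ξ | ξ ∈ U ∧ τ ≤ ξ} ⟨h4, h5⟩)
  set m := wellFounded_lt.min _ hne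
  have hmσ : m < σ := (hm3 e he h1).trans_lt h2
  refine ⟨m, hm1, ?_, ?_⟩
  · intro h3
    have : m ∈ V ∩ Iio σ := ⟨h3, hmσ⟩
    rw [← h] at this
    exact absurd this.2 (not_lt.2 hm2)
  · ext ξ
    constructor
    · rintro ⟨h3, h4⟩
      have h5 : ξ < τ := by
        by_contra hcon
        exact absurd (hm3 ξ h3 (not_lt.1 hcon)) (not_le.2 h4)
      have : ξ ∈ U ∩ Iio τ := ⟨h3, h5⟩
      rw [h] at this
      exact ⟨this.1, h4⟩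
    · rintro ⟨h3, h4⟩
      have : ξ ∈ V ∩ Iio σ := ⟨h3, lt_trans h4 hmσ⟩
      rw [← h] at this
      exact ⟨this.1, h4⟩

/-- the trace of `X α` below `i` can be continued by stationary many members of `A` with
arbitrarily large next elements, simultaneously for `X` and `Y` -/
def Good (X Y : Om → Set Om) (A : Set Om) (α i : Om) : Prop :=
  ∀ ζ, (∀ ξ ∈ X α ∩ Iio i, ξ < ζ) → (∀ ξ ∈ Y α ∩ Iio i, ξ < ζ) →
    IsStationary {β | β ∈ A ∧ X β ∩ Iio ζ = X α ∩ Iio i ∧ Y β ∩ Iio ζ = Y α ∩ Iio i}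

theorem exists_good {S : Set Om} {X Y : Om → Set Om} (hX : LadSet S X) (hY : LadSet S Y)
    {A : Set Om} (hA : A ⊆ S) :
    ∃ C, IsClub C ∧ ∀ α ∈ A, α ∈ C → ∀ ρ < α, ∃ i, ρ < i ∧ i < α ∧ Good X Y A α i := by
  classical
  let I := Finset Om × Finset Om
  let supp : I → Set Om := fun p => (p.1 : Set Om) ∪ p.2
  have hfin : ∀ p, (supp p).Finite := fun p => p.1.finite_toSet.union p.2.finite_toSet
  have hc : ∀ γ, {p | ∀ ξ ∈ supp p, ξ < γ}.Countable :=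
    supp_prod (fun F : Finset Om => (F : Set Om)) (fun F : Finset Om => (F : Set Om))
      supp_fin supp_fin
  let G : I → Om → Set Om := fun p ζ => {β | β ∈ A ∧ X β ∩ Iio ζ = p.1 ∧ Y β ∩ Iio ζ = p.2}
  have h1 : ∀ p : I, ∃ (ζ : Om) (C : Set Om), IsClub C ∧
      ((∃ ζ', (∀ ξ ∈ supp p, ξ < ζ') ∧ ¬ IsStationary (G p ζ')) →
        (∀ ξ ∈ supp p, ξ < ζ) ∧ Disjoint (G p ζ) C) := by
    intro p
    by_cases h : ∃ ζ', (∀ ξ ∈ supp p, ξ < ζ') ∧ ¬ IsStationary (G p ζ')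
    · obtain ⟨ζ', h2, h3⟩ := h
      obtain ⟨C, hC, hdis⟩ := not_isStationary_iff.1 h3
      exact ⟨ζ', C, hC, fun _ => ⟨h2, hdis⟩⟩
    · exact ⟨Classical.arbitrary Om, univ, IsClub.univ, fun h' => absurd h' h⟩
  choose z C hC hzC using h1
  -- closure points
  have hE : IsClub {i | ∀ p, (∀ ξ ∈ supp p, ξ < i) → i ∈ Ici (z p)} :=
    isClub_diag supp hfin hc _ fun p => isClub_Ici _
  set E := {i | ∀ p, (∀ ξ ∈ supp p, ξ < i) → i ∈ Ici (z p)}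
  have hD : IsClub {i | ∀ p, (∀ ξ ∈ supp p, ξ < i) → i ∈ C p} :=
    isClub_diag supp hfin hc _ hC
  -- limits of closure points
  have h2 : ∀ ρ : Om, ∃ i ∈ E, ρ < i := by
    intro ρ
    obtain ⟨ρ', hρ'⟩ := exists_gt' ρ
    obtain ⟨i, hi, hle⟩ := hE.isCofinal ρ'
    exact ⟨i, hi, hρ'.trans_le hle⟩
  choose e heE he using h2
  have hL : IsClub {γ | ∀ ρ, (∀ ξ ∈ ({ρ} : Set Om), ξ < γ) → γ ∈ Ioi (e ρ)} :=
    isClub_diag (fun ρ : Om => ({ρ} : Set Om)) (fun _ => finite_singleton _) supp_om _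
      fun ρ => isClub_Ioi _
  refine ⟨_, IsClub.inter' hD hL, ?_⟩
  rintro α hαA ⟨hαD, hαL⟩ ρ hρ
  have heα : e ρ < α := hαL ρ (by simpa using hρ)
  refine ⟨e ρ, he ρ, heα, ?_⟩
  intro ζ hζX hζY
  have hfX := hX.fin α (hA hαA) _ heα
  have hfY := hY.fin α (hA hαA) _ heα
  let p : I := (hfX.toFinset, hfY.toFinset)
  have hp1 : (p.1 : Set Om) = X α ∩ Iio (e ρ) := hfX.coe_toFinset
  have hp2 : (p.2 : Set Om) = Y α ∩ Iio (e ρ) := hfY.coe_toFinset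
  have hsupp : ∀ ξ ∈ supp p, ξ < e ρ := by
    rintro ξ (hξ | hξ)
    · rw [hp1] at hξ; exact hξ.2
    · rw [hp2] at hξ; exact hξ.2
  have hsuppζ : ∀ ξ ∈ supp p, ξ < ζ := by
    rintro ξ (hξ | hξ)
    · rw [hp1] at hξ; exact hζX ξ hξ
    · rw [hp2] at hξ; exact hζY ξ hξ
  have h3 : ∀ ζ', (∀ ξ ∈ supp p, ξ < ζ') → IsStationary (G p ζ') := by
    by_contra hcon
    push Not at hcon
    obtain ⟨h4, h5⟩ := hzC p hcon
    have h6 : z p ≤ e ρ := heE ρ p hsupp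
    have h7 : α ∈ G p (z p) := by
      refine ⟨hαA, ?_, ?_⟩
      · rw [hp1]
        ext ξ
        constructor
        · rintro ⟨h8, h9⟩; exact ⟨h8, lt_of_lt_of_le h9 h6⟩
        · intro h8; exact ⟨h8.1, h4 ξ (Or.inl (by rw [hp1]; exact h8))⟩
      · rw [hp2]
        ext ξ
        constructor
        · rintro ⟨h8, h9⟩; exact ⟨h8, lt_of_lt_of_le h9 h6⟩
        · intro h8; exact ⟨h8.1, h4 ξ (Or.inr (by rw [hp2]; exact h8))⟩
    exact Set.disjoint_left.1 h5 h7 (hαD p fun ξ hξ => (hsupp ξ hξ).trans heα)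
  have h4 := h3 ζ hsuppζ
  simp only [G, hp1, hp2] at h4
  exact h4

end Pool.Agent.Lib.Pf5c9aa
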