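import Mathlib
import Pool.Agent.Lib.Pf5c9aa.Lad

set_option autoImplicit false

open Ordinal Cardinal Set

namespace Pool.Agent.Lib.Pf5c9aa

/-- half of the requirements on a condition -/
def Half (X Y : Om → Set Om) (s d : Finset Om) : Prop :=
  (∀ α ∈ s, ∀ β ∈ s, slt (X α) (X β) → slt (Y α) (Y β)) ∧
  ∀ α ∈ s, ∀ β ∈ s, ∀ ε ∈ d, ∀ ε' ∈ d, ε ≤ α → ε' ≤ β → X α ∩ Iio ε = X β ∩ Iio ε' →
    Y α ∩ Iio ε = Y β ∩ Iio ε'

/-- additional data when `δ` itself belongs to the condition -/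
structure CfgTwo (X Y : Om → Set Om) (s d d' : Finset Om) (δ δ' ζ i : Om) : Prop where
  iζ : i < ζ
  trX : X δ' ∩ Iio ζ = X δ ∩ Iio i
  trY : Y δ' ∩ Iio ζ = Y δ ∩ Iio i
  gapX : ∀ ε ∈ d', δ' ≤ ε → ∀ ξ ∈ X δ, ξ < ε → ξ < ζ
  gapY : ∀ ε ∈ d', δ' ≤ ε → ∀ ξ ∈ Y δ, ξ < ε → ξ < ζ
  nextX : ∃ e ∈ X δ, i ≤ e ∧ e < ζ
  nextY : ∃ e ∈ Y δ, i ≤ e ∧ e < ζ
  neX : ∀ β ∈ s, δ < β → X β ∩ Iio i ≠ X δ ∩ Iio i
  neY : ∀ β ∈ s, δ < β → Y β ∩ Iio i ≠ Y δ ∩ Iio i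
  si : ∀ α ∈ s, α < δ → α < i
  di : ∀ ε ∈ d, ε < δ → ε < i

theorem CfgTwo.swap {X Y : Om → Set Om} {s d d' : Finset Om} {δ δ' ζ i : Om}
    (h : CfgTwo X Y s d d' δ δ' ζ i) : CfgTwo Y X s d d' δ δ' ζ i :=
  ⟨h.iζ, h.trY, h.trX, h.gapY, h.gapX, h.nextY, h.nextX, h.neY, h.neX, h.si, h.di⟩

/-- a condition `(s, d)` with `δ ∈ d` and its reflection `(s', d')` below `δ` -/
structure Cfg (S : Set Om) (X Y : Om → Set Om) (s d s' d' : Finset Om) (δ δ' ζ : Om) :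
    Prop where
  hX : LadSet S X
  hY : LadSet S Y
  sS : ∀ α ∈ s, α ∈ S
  sS' : ∀ α ∈ s', α ∈ S
  h1 : Half X Y s d
  h1' : Half Y X s d
  h2 : Half X Y s' d'
  h2' : Half Y X s' d'
  δd : δ ∈ d
  δd' : δ' ∈ d'
  ζδ : ζ < δ'
  δδ : δ' < δ
  s'δ : ∀ α ∈ s', α < δ
  d'δ : ∀ ε ∈ d', ε < δ
  H1 : ∀ α, (α ∈ s ∧ α < δ) ↔ (α ∈ s' ∧ α < δ')
  H2 : ∀ ε, (ε ∈ d ∧ ε < δ) ↔ (ε ∈ d' ∧ ε < δ')
  sζ : ∀ α ∈ s, α < δ → α < ζ
  dζ : ∀ ε ∈ d, ε < δ → ε < ζ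
  H3 : ∀ α ∈ s', δ' < α → ∃ β ∈ s, δ < β ∧ X α ∩ Iio δ' = X β ∩ Iio δ ∧
    Y α ∩ Iio δ' = Y β ∩ Iio δ
  H4X : ∀ β ∈ s, δ < β → ∀ ξ ∈ X β, ξ < δ → ξ < ζ
  H4Y : ∀ β ∈ s, δ < β → ∀ ξ ∈ Y β, ξ < δ → ξ < ζ
  H5 : δ' ∈ s' → δ ∈ s
  H6 : δ ∈ s → ∃ i, CfgTwo X Y s d d' δ δ' ζ i

namespace Cfg

variable {S : Set Om} {X Y : Om → Set Om} {s d s' d' : Finset Om} {δ δ' ζ : Om}

theorem swap (h : Cfg S X Y s d s' d' δ δ' ζ) : Cfg S Y X s d s' d' δ δ' ζ where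
  hX := h.hY
  hY := h.hX
  sS := h.sS
  sS' := h.sS'
  h1 := h.h1'
  h1' := h.h1
  h2 := h.h2'
  h2' := h.h2
  δd := h.δd
  δd' := h.δd'
  ζδ := h.ζδ
  δδ := h.δδ
  s'δ := h.s'δ
  d'δ := h.d'δ
  H1 := h.H1
  H2 := h.H2
  sζ := h.sζ
  dζ := h.dζ
  H3 := fun α hα hα' => by
    obtain ⟨β, h1, h2, h3, h4⟩ := h.H3 α hα hα'
    exact ⟨β, h1, h2, h4, h3⟩
  H4X := h.H4Y
  H4Y := h.H4X
  H5 := h.H5
  H6 := fun hδ => by
    obtain ⟨i, hi⟩ := h.H6 hδ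
    exact ⟨i, hi.swap⟩

/-- the main comparison: a trace of the condition against a trace of its reflection -/
theorem key (h : Cfg S X Y s d s' d' δ δ' ζ) {β ε α ε' : Om} (hβ : β ∈ s) (hε : ε ∈ d)
    (hεβ : ε ≤ β) (hα : α ∈ s') (hε' : ε' ∈ d') (hεα : ε' ≤ α)
    (heq : X β ∩ Iio ε = X α ∩ Iio ε') : Y β ∩ Iio ε = Y α ∩ Iio ε' := by
  have hδ'd := h.δd'
  have hζδ := h.ζδ
  have hδδ := h.δδ
  rcases lt_or_ge ε' δ' with hc | hc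
  · -- `ε'` is old
    have hε'd : ε' ∈ d := ((h.H2 ε').2 ⟨hε', hc⟩).1
    rcases lt_trichotomy α δ' with hα1 | hα1 | hα1
    · have hαs : α ∈ s := ((h.H1 α).2 ⟨hα, hα1⟩).1
      exact h.h1.2 β hβ α hαs ε hε ε' hε'd hεβ hεα heq
    · subst hα1
      have hδs := h.H5 hα
      obtain ⟨i, hi⟩ := h.H6 hδs
      have hε'i : ε' < i := hi.di ε' hε'd (hc.trans hδδ)
      have e1 : X α ∩ Iio ε' = X δ ∩ Iio ε' := tr_mono hi.trX (hε'i.trans hi.iζ).le hε'i.le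
      have e2 : Y α ∩ Iio ε' = Y δ ∩ Iio ε' := tr_mono hi.trY (hε'i.trans hi.iζ).le hε'i.le
      rw [e2]
      rw [e1] at heq
      exact h.h1.2 β hβ δ hδs ε hε ε' hε'd hεβ (hc.trans hδδ).le heq
    · obtain ⟨β', hβ', hβ'δ, t1, t2⟩ := h.H3 α hα hα1
      have e1 : X α ∩ Iio ε' = X β' ∩ Iio ε' := tr_mono t1 hc.le (hc.trans hδδ).le
      have e2 : Y α ∩ Iio ε' = Y β' ∩ Iio ε' := tr_mono t2 hc.le (hc.trans hδδ).le
      rw [e2]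
      rw [e1] at heq
      exact h.h1.2 β hβ β' hβ' ε hε ε' hε'd hεβ ((hc.trans hδδ).trans hβ'δ).le heq
  · rcases (hc.trans hεα).eq_or_lt with hα1 | hα1
    · -- `α = δ' = ε'`: impossible
      exfalso
      subst hα1
      have hε'eq : ε' = δ' := le_antisymm hεα hc
      subst hε'eq
      have hδ'S := h.sS' _ hα
      rcases lt_trichotomy β δ with hβ1 | hβ1 | hβ1
      · have : β < ε' := ((h.H1 β).1 ⟨hβ, hβ1⟩).2
        obtain ⟨ξ, hξ, hξ'⟩ := h.hX.cof _ hδ'S β this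
        have h3 : ξ ∈ X ε' ∩ Iio ε' := ⟨hξ, h.hX.lt _ hδ'S ξ hξ⟩
        rw [← heq] at h3
        exact absurd (h.hX.lt β (h.sS β hβ) ξ h3.1) (not_lt.2 hξ'.le)
      · subst hβ1
        rcases lt_or_ge ε β with hε1 | hε1
        · have hεδ : ε < ε' := ((h.H2 ε).1 ⟨hε, hε1⟩).2
          obtain ⟨ξ, hξ, hξ'⟩ := h.hX.cof _ hδ'S ε hεδ
          have h3 : ξ ∈ X ε' ∩ Iio ε' := ⟨hξ, h.hX.lt _ hδ'S ξ hξ⟩
          rw [← heq] at h3
          exact absurd h3.2 (not_lt.2 hξ'.le)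
        · obtain ⟨ξ, hξ, hξ'⟩ := h.hX.cof β (h.sS β hβ) ε' hδδ
          have h3 : ξ ∈ X β ∩ Iio ε := ⟨hξ, (h.hX.lt β (h.sS β hβ) ξ hξ).trans_le hε1⟩
          rw [heq] at h3
          exact absurd h3.2 (not_lt.2 hξ'.le)
      · obtain ⟨ξ, hξ, hξ'⟩ := h.hX.cof _ hδ'S ζ hζδ
        have h3 : ξ ∈ X ε' ∩ Iio ε' := ⟨hξ, h.hX.lt _ hδ'S ξ hξ⟩
        have h3' := h3
        rw [← heq] at h3
        exact absurd (h.H4X β hβ hβ1 ξ h3.1 (lt_trans h3'.2 hδδ)) (not_lt.2 hξ'.le)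
    · obtain ⟨β', hβ', hβ'δ, t1, t2⟩ := h.H3 α hα hα1
      rcases lt_or_ge ε δ with hε1 | hε1
      · -- `ε` is old
        have hεd' := (h.H2 ε).1 ⟨hε, hε1⟩
        have e1 : X α ∩ Iio ε' = X α ∩ Iio ε := by
          ext ξ
          constructor
          · intro hξ
            have hξ' := hξ
            rw [← heq] at hξ
            exact ⟨hξ'.1, hξ.2⟩
          · rintro ⟨h3, h4⟩
            exact ⟨h3, lt_of_lt_of_le (lt_trans h4 hεd'.2) hc⟩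
        have e2 : Y α ∩ Iio ε' = Y α ∩ Iio ε :=
          h.h2.2 α hα α hα ε' hε' ε hεd'.1 hεα (hεd'.2.trans hα1).le e1
        have e3 : X α ∩ Iio ε = X β' ∩ Iio ε := tr_mono t1 hεd'.2.le hε1.le
        have e4 : Y α ∩ Iio ε = Y β' ∩ Iio ε := tr_mono t2 hεd'.2.le hε1.le
        rw [e2, e4]
        exact h.h1.2 β hβ β' hβ' ε hε ε hε hεβ (hε1.trans hβ'δ).le (by rw [heq, e1, e3])
      · rcases (hε1.trans hεβ).eq_or_lt with hβ1 | hβ1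
        · -- `β = δ`
          exfalso
          subst hβ1
          obtain ⟨ξ, hξ, hξ'⟩ := h.hX.cof δ (h.sS δ hβ) α (h.s'δ α hα)
          have h3 : ξ ∈ X δ ∩ Iio ε := ⟨hξ, (h.hX.lt δ (h.sS δ hβ) ξ hξ).trans_le hε1⟩
          rw [heq] at h3
          exact absurd (h.hX.lt α (h.sS' α hα) ξ h3.1) (not_lt.2 hξ'.le)
        · have e1 : X β ∩ Iio ε = X β ∩ Iio δ := by
            ext ξ
            constructor
            · intro hξ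
              have hξ' := hξ
              rw [heq] at hξ
              exact ⟨hξ'.1, (h.hX.lt α (h.sS' α hα) ξ hξ.1).trans (h.s'δ α hα)⟩
            · rintro ⟨h3, h4⟩
              exact ⟨h3, lt_of_lt_of_le h4 hε1⟩
          have e2 : Y β ∩ Iio ε = Y β ∩ Iio δ :=
            h.h1.2 β hβ β hβ ε hε δ h.δd hεβ hβ1.le e1
          have e3 : X α ∩ Iio ε' = X α ∩ Iio δ' := by
            ext ξ
            constructor
            · intro hξ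
              have hξ' := hξ
              rw [← heq] at hξ
              refine ⟨hξ'.1, ?_⟩
              exact (h.H4X β hβ hβ1 ξ hξ.1
                ((h.hX.lt α (h.sS' α hα) ξ hξ'.1).trans (h.s'δ α hα))).trans hζδ
            · rintro ⟨h3, h4⟩
              exact ⟨h3, lt_of_lt_of_le h4 hc⟩
          have e4 : Y α ∩ Iio ε' = Y α ∩ Iio δ' :=
            h.h2.2 α hα α hα ε' hε' δ' h.δd' hεα hα1.le e3
          have e5 : X β ∩ Iio δ = X β' ∩ Iio δ := by rw [← e1, heq, e3, t1]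
          have e6 : Y β ∩ Iio δ = Y β' ∩ Iio δ :=
            h.h1.2 β hβ β' hβ' δ h.δd δ h.δd hβ1.le hβ'δ.le e5
          rw [e2, e6, e4, t2]

/-- the trace of `δ` below `ζ` is not a trace of the condition -/
theorem no_R (h : Cfg S X Y s d s' d' δ δ' ζ) (hδs : δ ∈ s) {β ε : Om} (hβ : β ∈ s)
    (hε : ε ∈ d) (hεβ : ε ≤ β) : X β ∩ Iio ε ≠ X δ ∩ Iio ζ := by
  intro heq
  obtain ⟨i, hi⟩ := h.H6 hδs
  obtain ⟨e, he, hie, heζ⟩ := hi.nextX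
  have h3 : e ∈ X δ ∩ Iio ζ := ⟨he, heζ⟩
  rw [← heq] at h3
  have heβ := h.hX.lt β (h.sS β hβ) e h3.1
  rcases lt_trichotomy β δ with hβ1 | hβ1 | hβ1
  · exact absurd (hi.si β hβ hβ1) (not_lt.2 (hie.trans heβ.le))
  · subst hβ1
    rcases hεβ.eq_or_lt with hε1 | hε1
    · subst hε1
      obtain ⟨ξ, hξ, hξ'⟩ := h.hX.cof ε (h.sS ε hβ) ζ (h.ζδ.trans h.δδ)
      have h4 : ξ ∈ X ε ∩ Iio ε := ⟨hξ, h.hX.lt ε (h.sS ε hβ) ξ hξ⟩
      rw [heq] at h4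
      exact absurd h4.2 (not_lt.2 hξ'.le)
    · exact absurd (hi.di ε hε hε1) (not_lt.2 (hie.trans (le_of_lt h3.2)))
  · exact hi.neX β hβ hβ1 (tr_mono heq (hie.trans (le_of_lt h3.2)) hi.iζ.le)

/-- the trace of `δ` below `ζ` is not a trace of the reflection -/
theorem no_R' (h : Cfg S X Y s d s' d' δ δ' ζ) (hδs : δ ∈ s) {α ε' : Om} (hα : α ∈ s') :
    X α ∩ Iio ε' ≠ X δ ∩ Iio ζ := by
  intro heq
  obtain ⟨i, hi⟩ := h.H6 hδs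
  obtain ⟨e, he, hie, heζ⟩ := hi.nextX
  have h3 : e ∈ X δ ∩ Iio ζ := ⟨he, heζ⟩
  rw [← heq] at h3
  have heα := h.hX.lt α (h.sS' α hα) e h3.1
  rcases lt_trichotomy α δ' with hα1 | hα1 | hα1
  · have h4 := (h.H1 α).2 ⟨hα, hα1⟩
    exact absurd (hi.si α h4.1 h4.2) (not_lt.2 (hie.trans heα.le))
  · subst hα1
    have h4 : e ∈ X α ∩ Iio ζ := ⟨h3.1, heζ⟩
    rw [hi.trX] at h4
    exact absurd h4.2 (not_lt.2 hie)
  · obtain ⟨β', hβ', hβ'δ, t1, t2⟩ := h.H3 α hα hα1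
    apply hi.neX β' hβ' hβ'δ
    have e1 : X α ∩ Iio i = X β' ∩ Iio i :=
      tr_mono t1 (hi.iζ.trans h.ζδ).le ((hi.iζ.trans h.ζδ).trans h.δδ).le
    rw [← e1]
    exact tr_mono heq (hie.trans (le_of_lt h3.2)) hi.iζ.le

/-- classification of the traces of the union -/
theorem classify (h : Cfg S X Y s d s' d' δ δ' ζ) {α ε : Om} (hα : α ∈ s ∪ s')
    (hε : ε ∈ d ∪ d') (hεα : ε ≤ α) :
    (∃ β ∈ s, ∃ η ∈ d, η ≤ β ∧ X α ∩ Iio ε = X β ∩ Iio η ∧ Y α ∩ Iio ε = Y β ∩ Iio η) ∨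
    (∃ β ∈ s', ∃ η ∈ d', η ≤ β ∧ X α ∩ Iio ε = X β ∩ Iio η ∧ Y α ∩ Iio ε = Y β ∩ Iio η) ∨
    (δ ∈ s ∧ X α ∩ Iio ε = X δ ∩ Iio ζ ∧ Y α ∩ Iio ε = Y δ ∩ Iio ζ) := by
  rw [Finset.mem_union] at hα hε
  rcases hα with hα | hα
  · by_cases hε1 : ε ∈ d
    · exact Or.inl ⟨α, hα, ε, hε1, hεα, rfl, rfl⟩
    · have hε2 : ε ∈ d' := hε.resolve_left hε1
      have hεδ' : δ' ≤ ε := by
        by_contra hcon
        exact hε1 ((h.H2 ε).2 ⟨hε2, not_le.1 hcon⟩).1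
      have hεδ := h.d'δ ε hε2
      rcases lt_trichotomy α δ with hα1 | hα1 | hα1
      · have := (h.H1 α).1 ⟨hα, hα1⟩
        exact absurd (this.2.trans_le hεδ') (not_lt.2 hεα)
      · subst hα1
        obtain ⟨i, hi⟩ := h.H6 hα
        refine Or.inr (Or.inr ⟨hα, ?_, ?_⟩)
        · ext ξ
          constructor
          · rintro ⟨h3, h4⟩; exact ⟨h3, hi.gapX ε hε2 hεδ' ξ h3 h4⟩
          · rintro ⟨h3, h4⟩; exact ⟨h3, lt_of_lt_of_le (lt_trans h4 h.ζδ) hεδ'⟩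
        · ext ξ
          constructor
          · rintro ⟨h3, h4⟩; exact ⟨h3, hi.gapY ε hε2 hεδ' ξ h3 h4⟩
          · rintro ⟨h3, h4⟩; exact ⟨h3, lt_of_lt_of_le (lt_trans h4 h.ζδ) hεδ'⟩
      · refine Or.inl ⟨α, hα, δ, h.δd, hα1.le, ?_, ?_⟩
        · ext ξ
          constructor
          · rintro ⟨h3, h4⟩; exact ⟨h3, lt_trans h4 hεδ⟩
          · rintro ⟨h3, h4⟩
            exact ⟨h3, lt_of_lt_of_le (lt_trans (h.H4X α hα hα1 ξ h3 h4) h.ζδ) hεδ'⟩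
        · ext ξ
          constructor
          · rintro ⟨h3, h4⟩; exact ⟨h3, lt_trans h4 hεδ⟩
          · rintro ⟨h3, h4⟩
            exact ⟨h3, lt_of_lt_of_le (lt_trans (h.H4Y α hα hα1 ξ h3 h4) h.ζδ) hεδ'⟩
  · have hε2 : ε ∈ d' := by
      rcases hε with hε | hε
      · exact ((h.H2 ε).1 ⟨hε, hεα.trans_lt (h.s'δ α hα)⟩).1
      · exact hε
    exact Or.inr (Or.inl ⟨α, hα, ε, hε2, hεα, rfl, rfl⟩)

theorem star (h : Cfg S X Y s d s' d' δ δ' ζ) {α β ε ε' : Om} (hα : α ∈ s ∪ s')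
    (hβ : β ∈ s ∪ s') (hε : ε ∈ d ∪ d') (hε' : ε' ∈ d ∪ d') (hεα : ε ≤ α) (hεβ : ε' ≤ β)
    (heq : X α ∩ Iio ε = X β ∩ Iio ε') : Y α ∩ Iio ε = Y β ∩ Iio ε' := by
  rcases h.classify hα hε hεα with ⟨a, ha, e, he, hea, x1, y1⟩ | ⟨a, ha, e, he, hea, x1, y1⟩ |
    ⟨hδs, x1, y1⟩ <;>
  rcases h.classify hβ hε' hεβ with ⟨b, hb, e', he', heb, x2, y2⟩ |
    ⟨b, hb, e', he', heb, x2, y2⟩ | ⟨hδs', x2, y2⟩ <;> rw [y1, y2] <;> rw [x1, x2] at heq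
  · exact h.h1.2 a ha b hb e he e' he' hea heb heq
  · exact h.key ha he hea hb he' heb heq
  · exact absurd heq (h.no_R hδs' ha he hea)
  · exact (h.key hb he' heb ha he hea heq.symm).symm
  · exact h.h2.2 a ha b hb e he e' he' hea heb heq
  · exact absurd heq (h.no_R' hδs' ha)
  · exact absurd heq.symm (h.no_R hδs hb he' heb)
  · exact absurd heq.symm (h.no_R' hδs hb)

/-- agreement across the two conditions -/
theorem agree (h : Cfg S X Y s d s' d' δ δ' ζ) {α β : Om} (hα : α ∈ s') (hβ : β ∈ s) :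
    (slt (X α) (X β) → slt (Y α) (Y β)) ∧ (slt (X β) (X α) → slt (Y β) (Y α)) := by
  have hζδ := h.ζδ
  have hδδ := h.δδ
  rcases lt_or_ge α δ' with hα0 | hα0
  · have := ((h.H1 α).2 ⟨hα, hα0⟩).1
    exact ⟨h.h1.1 α this β hβ, h.h1.1 β hβ α this⟩
  rcases lt_or_ge β δ with hβ0 | hβ0
  · have := ((h.H1 β).1 ⟨hβ, hβ0⟩).1
    exact ⟨h.h2.1 α hα β this, h.h2.1 β this α hα⟩
  rcases hα0.eq_or_lt with hα1 | hα1
  · subst hα1
    have hδs := h.H5 hα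
    obtain ⟨i, hi⟩ := h.H6 hδs
    have x1 : X δ' ∩ Iio i = X δ ∩ Iio i := tr_mono hi.trX hi.iζ.le le_rfl
    have y1 : Y δ' ∩ Iio i = Y δ ∩ Iio i := tr_mono hi.trY hi.iζ.le le_rfl
    rcases hβ0.eq_or_lt with hβ1 | hβ1
    · subst hβ1
      obtain ⟨e, he, h3, h4⟩ := hi.nextX
      obtain ⟨e', he', h3', h4'⟩ := hi.nextY
      have a1 : slt (X δ) (X δ') := slt_gap hi.trX.symm he h3 h4
      have a2 : slt (Y δ) (Y δ') := slt_gap hi.trY.symm he' h3' h4'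
      exact ⟨fun h5 => absurd h5 (slt_asymm a1), fun _ => a2⟩
    · have n1 := hi.neX β hβ hβ1
      have n2 := hi.neY β hβ hβ1
      have a1 : slt (X δ') (X β) ↔ slt (X δ) (X β) := slt_transfer x1 rfl (by rw [x1]; exact n1.symm)
      have a2 : slt (X β) (X δ') ↔ slt (X β) (X δ) := slt_transfer rfl x1 (by rw [x1]; exact n1)
      have a3 : slt (Y δ') (Y β) ↔ slt (Y δ) (Y β) := slt_transfer y1 rfl (by rw [y1]; exact n2.symm)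
      have a4 : slt (Y β) (Y δ') ↔ slt (Y β) (Y δ) := slt_transfer rfl y1 (by rw [y1]; exact n2)
      rw [a1, a2, a3, a4]
      exact ⟨h.h1.1 δ hδs β hβ, h.h1.1 β hβ δ hδs⟩
  · obtain ⟨β', hβ', hβ'δ, t1, t2⟩ := h.H3 α hα hα1
    rcases hβ0.eq_or_lt with hβ1 | hβ1
    · subst hβ1
      obtain ⟨i, hi⟩ := h.H6 hβ
      have x1 : X α ∩ Iio i = X β' ∩ Iio i :=
        tr_mono t1 (hi.iζ.trans hζδ).le ((hi.iζ.trans hζδ).trans hδδ).le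
      have y1 : Y α ∩ Iio i = Y β' ∩ Iio i :=
        tr_mono t2 (hi.iζ.trans hζδ).le ((hi.iζ.trans hζδ).trans hδδ).le
      have n1 := hi.neX β' hβ' hβ'δ
      have n2 := hi.neY β' hβ' hβ'δ
      have a1 : slt (X α) (X δ) ↔ slt (X β') (X δ) := slt_transfer x1 rfl (by rw [x1]; exact n1)
      have a2 : slt (X δ) (X α) ↔ slt (X δ) (X β') := slt_transfer rfl x1 (by rw [x1]; exact n1.symm)
      have a3 : slt (Y α) (Y δ) ↔ slt (Y β') (Y δ) := slt_transfer y1 rfl (by rw [y1]; exact n2)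
      have a4 : slt (Y δ) (Y α) ↔ slt (Y δ) (Y β') := slt_transfer rfl y1 (by rw [y1]; exact n2.symm)
      rw [a1, a2, a3, a4]
      exact ⟨h.h1.1 β' hβ' δ hβ, h.h1.1 δ hβ β' hβ'⟩
    · by_cases hc : X β' ∩ Iio δ = X β ∩ Iio δ
      · have hc' : Y β' ∩ Iio δ = Y β ∩ Iio δ :=
          h.h1.2 β' hβ' β hβ δ h.δd δ h.δd hβ'δ.le hβ1.le hc
        obtain ⟨e, he, h3⟩ := h.hX.cof α (h.sS' α hα) δ' hα1
        obtain ⟨e', he', h3'⟩ := h.hY.cof α (h.sS' α hα) δ' hα1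
        have a1 : slt (X α) (X β) := slt_gap (t1.trans hc) he h3.le
          ((h.hX.lt α (h.sS' α hα) e he).trans (h.s'δ α hα))
        have a2 : slt (Y α) (Y β) := slt_gap (t2.trans hc') he' h3'.le
          ((h.hY.lt α (h.sS' α hα) e' he').trans (h.s'δ α hα))
        exact ⟨fun _ => a2, fun h5 => absurd h5 (slt_asymm a1)⟩
      · have hc' : Y β' ∩ Iio δ ≠ Y β ∩ Iio δ := fun h5 =>
          hc (h.h1'.2 β' hβ' β hβ δ h.δd δ h.δd hβ'δ.le hβ1.le h5)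
        have x1 : X α ∩ Iio ζ = X β' ∩ Iio ζ := tr_mono t1 hζδ.le (hζδ.trans hδδ).le
        have y1 : Y α ∩ Iio ζ = Y β' ∩ Iio ζ := tr_mono t2 hζδ.le (hζδ.trans hδδ).le
        have low : ∀ Z : Om → Set Om, (∀ β ∈ s, δ < β → ∀ ξ ∈ Z β, ξ < δ → ξ < ζ) →
            ∀ b ∈ s, δ < b → Z b ∩ Iio δ = Z b ∩ Iio ζ := by
          intro Z hZ b hb hδb
          ext ξ
          constructor
          · rintro ⟨h3, h4⟩; exact ⟨h3, hZ b hb hδb ξ h3 h4⟩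
          · rintro ⟨h3, h4⟩; exact ⟨h3, lt_trans h4 (hζδ.trans hδδ)⟩
        have n1 : X β' ∩ Iio ζ ≠ X β ∩ Iio ζ := by
          rw [← low X h.H4X β' hβ' hβ'δ, ← low X h.H4X β hβ hβ1]; exact hc
        have n2 : Y β' ∩ Iio ζ ≠ Y β ∩ Iio ζ := by
          rw [← low Y h.H4Y β' hβ' hβ'δ, ← low Y h.H4Y β hβ hβ1]; exact hc'
        have a1 : slt (X α) (X β) ↔ slt (X β') (X β) := slt_transfer x1 rfl (by rw [x1]; exact n1)
        have a2 : slt (X β) (X α) ↔ slt (X β) (X β') := slt_transfer rfl x1 (by rw [x1]; exact n1.symm)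
        have a3 : slt (Y α) (Y β) ↔ slt (Y β') (Y β) := slt_transfer y1 rfl (by rw [y1]; exact n2)
        have a4 : slt (Y β) (Y α) ↔ slt (Y β) (Y β') := slt_transfer rfl y1 (by rw [y1]; exact n2.symm)
        rw [a1, a2, a3, a4]
        exact ⟨h.h1.1 β' hβ' β hβ, h.h1.1 β hβ β' hβ'⟩

theorem half (h : Cfg S X Y s d s' d' δ δ' ζ) : Half X Y (s ∪ s') (d ∪ d') := by
  refine ⟨?_, fun α hα β hβ ε hε ε' hε' h3 h4 h5 => h.star hα hβ hε hε' h3 h4 h5⟩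
  intro α hα β hβ
  rw [Finset.mem_union] at hα hβ
  rcases hα with hα | hα <;> rcases hβ with hβ | hβ
  · exact h.h1.1 α hα β hβ
  · exact (h.agree hβ hα).2
  · exact (h.agree hα hβ).1
  · exact h.h2.1 α hα β hβ

end Cfg

end Pool.Agent.Lib.Pf5c9aa
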