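import Mathlib
import Pool.Agent.Lib.Pf5c9aa.Compat

set_option autoImplicit false

open Ordinal Cardinal Set

namespace Pool.Agent.Lib.Pf5c9aa

/-- the conditions of the forcing -/
structure Cond (X Y : Om → Set Om) (S0 : Set Om) : Type where
  s : Finset Om
  d : Finset Om
  ne : s.Nonempty
  mem : ∀ α ∈ s, α ∈ S0
  h : Half X Y s d
  h' : Half Y X s d

instance {X Y : Om → Set Om} {S0 : Set Om} : Preorder (Cond X Y S0) where
  le p q := q.s ⊆ p.s ∧ q.d ⊆ p.d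
  le_refl p := ⟨subset_rfl, subset_rfl⟩
  le_trans p q r h1 h2 := ⟨h2.1.trans h1.1, h2.2.trans h1.2⟩

/-- the support of a condition -/
def Cond.supp {X Y : Om → Set Om} {S0 : Set Om} (p : Cond X Y S0) : Set Om :=
  (p.s : Set Om) ∪ p.d

theorem Cond.supp_finite {X Y : Om → Set Om} {S0 : Set Om} (p : Cond X Y S0) :
    p.supp.Finite := p.s.finite_toSet.union p.d.finite_toSet

open Classical in
/-- traces as finsets -/
noncomputable def trF (X : Om → Set Om) (β δ : Om) : Finset Om :=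
  if h : (X β ∩ Iio δ).Finite then h.toFinset else ∅

theorem coe_trF {S : Set Om} {X : Om → Set Om} (hX : LadSet S X) {β δ : Om} (hβ : β ∈ S)
    (h : δ < β) : (trF X β δ : Set Om) = X β ∩ Iio δ := by
  unfold trF
  rw [dif_pos (hX.fin β hβ δ h)]
  exact (hX.fin β hβ δ h).coe_toFinset

/-- the parameters of a condition at `δ` -/
abbrev Par : Type := (Finset Om × Finset Om) × Finset (Finset Om × Finset Om)

def suppPair (p : Finset Om × Finset Om) : Set Om := (p.1 : Set Om) ∪ p.2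

def suppPar (p : Par) : Set Om := suppPair p.1 ∪ ⋃ t ∈ p.2, suppPair t

theorem suppPair_finite (p : Finset Om × Finset Om) : (suppPair p).Finite :=
  p.1.finite_toSet.union p.2.finite_toSet

theorem suppPar_finite (p : Par) : (suppPar p).Finite :=
  (suppPair_finite _).union (p.2.finite_toSet.biUnion fun t _ => suppPair_finite t)

theorem suppPair_countable : ∀ γ, {p | ∀ ξ ∈ suppPair p, ξ < γ}.Countable :=
  supp_prod (fun F : Finset Om => (F : Set Om)) (fun F : Finset Om => (F : Set Om))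
    supp_fin supp_fin

theorem suppPar_countable : ∀ γ, {p | ∀ ξ ∈ suppPar p, ξ < γ}.Countable :=
  supp_prod suppPair (fun T : Finset (Finset Om × Finset Om) => ⋃ t ∈ T, suppPair t)
    suppPair_countable (supp_finset suppPair suppPair_countable)

variable {S S0 : Set Om} {X Y : Om → Set Om}

open Classical in
/-- the parameters of the condition `p` at `δ` -/
noncomputable def par (p : Cond X Y S0) (δ : Om) : Par :=
  ((p.s.filter (· < δ), p.d.filter (· < δ)),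
    (p.s.filter (δ < ·)).image fun β => (trF X β δ, trF Y β δ))

theorem par_lt (hX : LadSet S X) (hY : LadSet S Y) (hS : S0 ⊆ S) (p : Cond X Y S0) (δ : Om) :
    ∀ ξ ∈ suppPar (par p δ), ξ < δ := by
  rintro ξ (hξ | hξ)
  · rcases hξ with hξ | hξ
    · exact (Finset.mem_filter.1 hξ).2
    · exact (Finset.mem_filter.1 hξ).2
  · rw [mem_iUnion₂] at hξ
    obtain ⟨t, ht, hξ⟩ := hξ
    obtain ⟨β, hβ, rfl⟩ := Finset.mem_image.1 ht
    rw [Finset.mem_filter] at hβ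
    rcases hξ with hξ | hξ
    · have hξ' : ξ ∈ (trF X β δ : Set Om) := hξ
      rw [coe_trF hX (hS (p.mem β hβ.1)) hβ.2] at hξ'
      exact hξ'.2
    · have hξ' : ξ ∈ (trF Y β δ : Set Om) := hξ
      rw [coe_trF hY (hS (p.mem β hβ.1)) hβ.2] at hξ'
      exact hξ'.2

theorem par_memX (hX : LadSet S X) (hS : S0 ⊆ S) (p : Cond X Y S0) (δ : Om)
    {β ξ : Om} (hβ : β ∈ p.s) (h1 : δ < β) (h2 : ξ ∈ X β) (h3 : ξ < δ) :
    ξ ∈ suppPar (par p δ) := by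
  right
  rw [mem_iUnion₂]
  refine ⟨(trF X β δ, trF Y β δ), Finset.mem_image.2 ⟨β, Finset.mem_filter.2 ⟨hβ, h1⟩, rfl⟩, ?_⟩
  left
  show ξ ∈ (trF X β δ : Set Om)
  rw [coe_trF hX (hS (p.mem β hβ)) h1]
  exact ⟨h2, h3⟩

theorem par_memY (hY : LadSet S Y) (hS : S0 ⊆ S) (p : Cond X Y S0) (δ : Om)
    {β ξ : Om} (hβ : β ∈ p.s) (h1 : δ < β) (h2 : ξ ∈ Y β) (h3 : ξ < δ) :
    ξ ∈ suppPar (par p δ) := by
  right
  rw [mem_iUnion₂]
  refine ⟨(trF X β δ, trF Y β δ), Finset.mem_image.2 ⟨β, Finset.mem_filter.2 ⟨hβ, h1⟩, rfl⟩, ?_⟩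
  right
  show ξ ∈ (trF Y β δ : Set Om)
  rw [coe_trF hY (hS (p.mem β hβ)) h1]
  exact ⟨h2, h3⟩

theorem par_mem_s (p : Cond X Y S0) (δ : Om) {α : Om} (hα : α ∈ p.s) (h : α < δ) :
    α ∈ suppPar (par p δ) :=
  Or.inl (Or.inl (Finset.mem_coe.2 (Finset.mem_filter.2 ⟨hα, h⟩)))

theorem par_mem_d (p : Cond X Y S0) (δ : Om) {α : Om} (hα : α ∈ p.d) (h : α < δ) :
    α ∈ suppPar (par p δ) :=
  Or.inl (Or.inr (Finset.mem_coe.2 (Finset.mem_filter.2 ⟨hα, h⟩)))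

theorem mkCfg (hX : LadSet S X) (hY : LadSet S Y) (hS : S0 ⊆ S) (p p' : Cond X Y S0)
    {δ δ' ζ : Om} (hf : par p' δ' = par p δ) (hsupp : ∀ ξ ∈ suppPar (par p δ), ξ < ζ)
    (hζ : ζ < δ') (hδδ : δ' < δ) (hs : ∀ ξ ∈ p'.supp, ξ < δ) (hd : δ ∈ p.d) (hd' : δ' ∈ p'.d)
    (H5 : δ' ∈ p'.s → δ ∈ p.s) (H6 : δ ∈ p.s → ∃ i, CfgTwo X Y p.s p.d p'.d δ δ' ζ i) :
    Cfg S X Y p.s p.d p'.s p'.d δ δ' ζ where
  hX := hX
  hY := hY
  sS := fun α hα => hS (p.mem α hα)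
  sS' := fun α hα => hS (p'.mem α hα)
  h1 := p.h
  h1' := p.h'
  h2 := p'.h
  h2' := p'.h'
  δd := hd
  δd' := hd'
  ζδ := hζ
  δδ := hδδ
  s'δ := fun α hα => hs α (Or.inl hα)
  d'δ := fun α hα => hs α (Or.inr hα)
  H1 := fun α => by
    classical
    have h1 : α ∈ (par p' δ').1.1 ↔ α ∈ (par p δ).1.1 := by rw [hf]
    unfold par at h1
    simp only [Finset.mem_filter] at h1
    exact h1.symm
  H2 := fun α => by
    classical
    have h1 : α ∈ (par p' δ').1.2 ↔ α ∈ (par p δ).1.2 := by rw [hf]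
    unfold par at h1
    simp only [Finset.mem_filter] at h1
    exact h1.symm
  sζ := fun α hα h => hsupp α (par_mem_s p δ hα h)
  dζ := fun α hα h => hsupp α (par_mem_d p δ hα h)
  H3 := fun α hα hα' => by
    classical
    have h1 : (trF X α δ', trF Y α δ') ∈ (par p' δ').2 := by
      unfold par
      exact Finset.mem_image.2 ⟨α, Finset.mem_filter.2 ⟨hα, hα'⟩, rfl⟩
    rw [hf] at h1
    obtain ⟨β, hβ, heq⟩ := Finset.mem_image.1 h1
    rw [Finset.mem_filter] at hβ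
    rw [Prod.mk.injEq] at heq
    refine ⟨β, hβ.1, hβ.2, ?_, ?_⟩
    · rw [← coe_trF hX (hS (p'.mem α hα)) hα', ← coe_trF hX (hS (p.mem β hβ.1)) hβ.2, heq.1]
    · rw [← coe_trF hY (hS (p'.mem α hα)) hα', ← coe_trF hY (hS (p.mem β hβ.1)) hβ.2, heq.2]
  H4X := fun β hβ h ξ hξ hξ' => hsupp ξ (par_memX hX hS p δ hβ h hξ hξ')
  H4Y := fun β hβ h ξ hξ hξ' => hsupp ξ (par_memY hY hS p δ hβ h hξ hξ')
  H5 := H5
  H6 := H6

theorem compat_of_cfg {p p' : Cond X Y S0} {δ δ' ζ : Om}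
    (h : Cfg S X Y p.s p.d p'.s p'.d δ δ' ζ) : ∃ t : Cond X Y S0, t ≤ p ∧ t ≤ p' := by
  refine ⟨⟨p.s ∪ p'.s, p.d ∪ p'.d, ?_, ?_, h.half, h.swap.half⟩, ⟨?_, ?_⟩, ⟨?_, ?_⟩⟩
  · obtain ⟨a, ha⟩ := p.ne
    exact ⟨a, Finset.mem_union_left _ ha⟩
  · intro α hα
    rcases Finset.mem_union.1 hα with hα | hα
    · exact p.mem α hα
    · exact p'.mem α hα
  · exact Finset.subset_union_left
  · exact Finset.subset_union_left
  · exact Finset.subset_union_right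
  · exact Finset.subset_union_right

theorem exists_bound {F : Set Om} (hF : F.Finite) : ∃ b, ∀ ξ ∈ F, ξ < b :=
  exists_gt_of_countable hF.countable

theorem exists_mem_gt {A C : Set Om} (hA : IsStationary A) (hC : IsClub C) (b : Om) :
    ∃ δ ∈ A, δ ∈ C ∧ b < δ := by
  obtain ⟨δ, h1, h2, h3⟩ := hA (IsClub.inter' hC (isClub_Ioi b))
  exact ⟨δ, h1, h2, h3⟩

/-- the main lemma -/
theorem exists_compat (hX : LadSet S X) (hY : LadSet S Y) (hS : S0 ⊆ S) {B : Set Om}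
    (hB : IsStationary B) (r : Om → Cond X Y S0) (hr : ∀ δ ∈ B, δ ∈ (r δ).d) :
    ∃ δ' ∈ B, ∃ δ ∈ B, (∀ ξ ∈ (r δ').supp, ξ < δ) ∧ ∃ t, t ≤ r δ ∧ t ≤ r δ' := by
  classical
  have hsplit : IsStationary ({δ | δ ∈ B ∧ δ ∈ (r δ).s} ∪ {δ | δ ∈ B ∧ δ ∉ (r δ).s}) := by
    refine hB.mono fun δ hδ => ?_
    by_cases h : δ ∈ (r δ).s
    · exact Or.inl ⟨hδ, h⟩
    · exact Or.inr ⟨hδ, h⟩
  rw [isStationary_union_iff cof_Om] at hsplit
  rcases hsplit with hB1 | hB1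
  · -- `δ` belongs to the condition
    obtain ⟨π, hA⟩ := fodor suppPar suppPar_finite suppPar_countable hB1
      (fun δ => par (r δ) δ) (fun δ _ => par_lt hX hY hS (r δ) δ)
    set A := {δ | δ ∈ {δ | δ ∈ B ∧ δ ∈ (r δ).s} ∧ par (r δ) δ = π} with hAdef
    have hAS : A ⊆ S := fun δ hδ => hS ((r δ).mem δ hδ.1.2)
    obtain ⟨C, hC, hgood⟩ := exists_good hX hY hAS
    obtain ⟨ζ0, hζ0⟩ := exists_bound (suppPar_finite π)
    -- witnesses
    have wit : ∀ q : (Finset Om × Finset Om) × Om, ∃ b : Om,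
        (∃ δ' ∈ A, X δ' ∩ Iio q.2 = q.1.1 ∧ Y δ' ∩ Iio q.2 = q.1.2) →
        ∃ δ' ∈ A, X δ' ∩ Iio q.2 = q.1.1 ∧ Y δ' ∩ Iio q.2 = q.1.2 ∧
          (∀ ξ ∈ (r δ').supp, ξ < b) ∧ δ' < b := by
      intro q
      by_cases h : ∃ δ' ∈ A, X δ' ∩ Iio q.2 = q.1.1 ∧ Y δ' ∩ Iio q.2 = q.1.2
      · obtain ⟨δ', h1, h2, h3⟩ := h
        obtain ⟨b, hb⟩ := exists_bound ((r δ').supp_finite.union (finite_singleton δ'))
        exact ⟨b, fun _ => ⟨δ', h1, h2, h3, fun ξ hξ => hb ξ (Or.inl hξ), hb δ' (Or.inr rfl)⟩⟩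
      · exact ⟨Classical.arbitrary Om, fun h' => absurd h' h⟩
    choose b hb using wit
    have hsuppJ : ∀ γ, {q : (Finset Om × Finset Om) × Om |
        ∀ ξ ∈ suppPair q.1 ∪ ({q.2} : Set Om), ξ < γ}.Countable :=
      supp_prod suppPair (fun ρ : Om => ({ρ} : Set Om)) suppPair_countable supp_om
    have hK := isClub_diag (fun q : (Finset Om × Finset Om) × Om =>
      suppPair q.1 ∪ ({q.2} : Set Om)) (fun q => (suppPair_finite _).union (finite_singleton _))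
      hsuppJ (fun q => Ici (b q)) (fun q => isClub_Ici _)
    choose sc hsc using exists_gt'
    have hK2 := isClub_diag (fun ρ : Om => ({ρ} : Set Om)) (fun _ => finite_singleton _) supp_om
      (fun ρ => Ioi (sc ρ)) (fun ρ => isClub_Ioi _)
    have hKK := IsClub.inter' hK hK2
    have hk : ∀ ρ : Om, ∃ c ∈ {γ | ∀ (i : (Finset Om × Finset Om) × Om),
        (∀ ξ ∈ suppPair i.1 ∪ {i.2}, ξ < γ) → γ ∈ Ici (b i)} ∩
        {γ | ∀ (i : Om), (∀ ξ ∈ ({i} : Set Om), ξ < γ) → γ ∈ Ioi (sc i)}, ρ < c := by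
      intro ρ
      obtain ⟨c, hc, hle⟩ := hKK.isCofinal (sc ρ)
      exact ⟨c, hc, (hsc ρ).trans_le hle⟩
    choose k hkK hkρ using hk
    have hK' := isClub_diag (fun ρ : Om => ({ρ} : Set Om)) (fun _ => finite_singleton _) supp_om
      (fun ρ => Ioi (k ρ)) (fun ρ => isClub_Ioi _)
    obtain ⟨δ, hδA, ⟨hδC, hδK⟩, hζδ⟩ := exists_mem_gt hA (IsClub.inter' hC hK') ζ0
    have hδS : δ ∈ S := hAS hδA
    obtain ⟨e1, he1, he1'⟩ := hX.cof δ hδS ζ0 hζδ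
    obtain ⟨e2, he2, he2'⟩ := hY.cof δ hδS ζ0 hζδ
    have he1δ := hX.lt δ hδS e1 he1
    have he2δ := hY.lt δ hδS e2 he2
    obtain ⟨i, hρi, hiδ, hG⟩ := hgood δ hδA hδC (max e1 e2) (max_lt he1δ he2δ)
    have he1i : e1 < i := (le_max_left _ _).trans_lt hρi
    have he2i : e2 < i := (le_max_right _ _).trans_lt hρi
    obtain ⟨ex, hex, hiex⟩ := hX.cof δ hδS i hiδ
    obtain ⟨ey, hey, hiey⟩ := hY.cof δ hδS i hiδ
    have hexδ := hX.lt δ hδS ex hex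
    have heyδ := hY.lt δ hδS ey hey
    set c := k (max ex ey) with hcdef
    have hcδ : c < δ := hδK (max ex ey) (by simpa using ⟨hexδ, heyδ⟩)
    have hcρ : max ex ey < c := hkρ _
    obtain ⟨hcK, hcK2⟩ := hkK (max ex ey)
    -- a point of `c` above the two traces below `c`
    have lim : ∀ F : Set Om, F.Finite → (∀ ξ ∈ F, ξ < c) → ∃ ζ < c, ∀ ξ ∈ F, ξ < ζ := by
      intro F hF
      induction F, hF using Set.Finite.induction_on with
      | empty => intro _; exact ⟨ex, (le_max_left _ _).trans_lt hcρ, by simp⟩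
      | @insert a F _ _ ih =>
        intro h
        obtain ⟨ζ, hζ, hζ'⟩ := ih fun ξ hξ => h ξ (Or.inr hξ)
        have h1 : sc a < c := hcK2 a (by simpa using h a (Or.inl rfl))
        refine ⟨max ζ (sc a), max_lt hζ h1, ?_⟩
        rintro ξ (rfl | hξ)
        · exact (hsc ξ).trans_le (le_max_right _ _)
        · exact (hζ' ξ hξ).trans_le (le_max_left _ _)
    obtain ⟨ζ, hζc, hζ⟩ := lim ((X δ ∩ Iio c) ∪ (Y δ ∩ Iio c) ∪ {i})
      (((hX.fin δ hδS c hcδ).union (hY.fin δ hδS c hcδ)).union (finite_singleton i)) (by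
        rintro ξ ((hξ | hξ) | hξ)
        · exact hξ.2
        · exact hξ.2
        · rw [mem_singleton_iff] at hξ
          subst hξ
          exact (hiex.trans_le (le_max_left _ _)).trans hcρ)
    have hiζ : i < ζ := hζ i (Or.inr rfl)
    have hexc : ex < c := (le_max_left _ _).trans_lt hcρ
    have heyc : ey < c := (le_max_right _ _).trans_lt hcρ
    have hexζ : ex < ζ := hζ ex (Or.inl (Or.inl ⟨hex, hexc⟩))
    have heyζ : ey < ζ := hζ ey (Or.inl (Or.inr ⟨hey, heyc⟩))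
    have hcoeX := coe_trF hX hδS hiδ
    have hcoeY := coe_trF hY hδS hiδ
    obtain ⟨δ0, hδ0, -⟩ := hG ζ (fun ξ hξ => lt_trans hξ.2 hiζ) (fun ξ hξ => lt_trans hξ.2 hiζ)
      IsClub.univ
    obtain ⟨δ', hδ'A, hx', hy', hsuppb, hδ'b⟩ := hb ((trF X δ i, trF Y δ i), ζ)
      ⟨δ0, hδ0.1, by rw [hcoeX]; exact hδ0.2.1, by rw [hcoeY]; exact hδ0.2.2⟩
    have hbc : b ((trF X δ i, trF Y δ i), ζ) ≤ c := by
      apply hcK
      rintro ξ ((hξ | hξ) | hξ)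
      · have hξ' : ξ ∈ (trF X δ i : Set Om) := hξ
        rw [hcoeX] at hξ'
        exact (lt_trans hξ'.2 hiζ).trans hζc
      · have hξ' : ξ ∈ (trF Y δ i : Set Om) := hξ
        rw [hcoeY] at hξ'
        exact (lt_trans hξ'.2 hiζ).trans hζc
      · rw [mem_singleton_iff] at hξ
        rw [hξ]; exact hζc
    simp only at hx' hy'
    rw [hcoeX] at hx'
    rw [hcoeY] at hy'
    have hζδ' : ζ < δ' := by
      by_contra hcon
      have h1 : X δ' ∩ Iio ζ = X δ' := by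
        ext ξ
        constructor
        · exact fun h => h.1
        · exact fun h => ⟨h, lt_of_lt_of_le (hX.lt δ' (hAS hδ'A) ξ h) (not_lt.1 hcon)⟩
      rw [h1] at hx'
      apply hX.infinite (hAS hδ'A)
      rw [hx']
      exact hX.fin δ hδS i hiδ
    have hδ'δ : δ' < δ := (hδ'b.trans_le hbc).trans hcδ
    refine ⟨δ', hδ'A.1.1, δ, hδA.1.1, fun ξ hξ => ((hsuppb ξ hξ).trans_le hbc).trans hcδ, ?_⟩
    have hparδ : par (r δ) δ = π := hδA.2
    have hζ0ζ : ζ0 < ζ := (he1'.trans he1i).trans hiζ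
    refine compat_of_cfg (S := S) (δ := δ) (δ' := δ') (ζ := ζ) (mkCfg hX hY hS (r δ) (r δ')
      (hδ'A.2.trans hparδ.symm) ?_ hζδ' hδ'δ
      (fun ξ hξ => ((hsuppb ξ hξ).trans_le hbc).trans hcδ) (hr δ hδA.1.1) (hr δ' hδ'A.1.1)
      (fun _ => hδA.1.2) (fun _ => ⟨i, ?_⟩))
    · rw [hparδ]; exact fun ξ hξ => (hζ0 ξ hξ).trans hζ0ζ
    · have hlow : ∀ ξ ∈ suppPar (par (r δ) δ), ξ < ζ0 := by rw [hparδ]; exact hζ0
      refine ⟨hiζ, hx', hy', ?_, ?_, ⟨ex, hex, hiex.le, hexζ⟩, ⟨ey, hey, hiey.le, heyζ⟩,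
        ?_, ?_, ?_, ?_⟩
      · intro ε hε _ ξ hξ hξε
        exact hζ ξ (Or.inl (Or.inl ⟨hξ, lt_of_lt_of_le (hξε.trans (hsuppb ε (Or.inr hε))) hbc⟩))
      · intro ε hε _ ξ hξ hξε
        exact hζ ξ (Or.inl (Or.inr ⟨hξ, lt_of_lt_of_le (hξε.trans (hsuppb ε (Or.inr hε))) hbc⟩))
      · intro β hβ hδβ heq
        have h1 : e1 ∈ X δ ∩ Iio i := ⟨he1, he1i⟩
        rw [← heq] at h1
        exact absurd (hlow e1 (par_memX hX hS (r δ) δ hβ hδβ h1.1 he1δ)) (not_lt.2 he1'.le)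
      · intro β hβ hδβ heq
        have h1 : e2 ∈ Y δ ∩ Iio i := ⟨he2, he2i⟩
        rw [← heq] at h1
        exact absurd (hlow e2 (par_memY hY hS (r δ) δ hβ hδβ h1.1 he2δ)) (not_lt.2 he2'.le)
      · intro α hα h
        exact (hlow α (par_mem_s (r δ) δ hα h)).trans (he1'.trans he1i)
      · intro α hα h
        exact (hlow α (par_mem_d (r δ) δ hα h)).trans (he1'.trans he1i)
  · -- `δ` does not belong to the condition
    obtain ⟨π, hA⟩ := fodor suppPar suppPar_finite suppPar_countable hB1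
      (fun δ => par (r δ) δ) (fun δ _ => par_lt hX hY hS (r δ) δ)
    obtain ⟨ζ0, hζ0⟩ := exists_bound (suppPar_finite π)
    obtain ⟨δ', hδ'A, -, hζδ'⟩ := exists_mem_gt hA IsClub.univ ζ0
    obtain ⟨b, hb⟩ := exists_bound ((r δ').supp_finite.union (finite_singleton δ'))
    obtain ⟨δ, hδA, -, hbδ⟩ := exists_mem_gt hA IsClub.univ b
    have hparδ : par (r δ) δ = π := hδA.2
    have hs : ∀ ξ ∈ (r δ').supp, ξ < δ := fun ξ hξ => (hb ξ (Or.inl hξ)).trans hbδ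
    refine ⟨δ', hδ'A.1.1, δ, hδA.1.1, hs, ?_⟩
    refine compat_of_cfg (S := S) (δ := δ) (δ' := δ') (ζ := ζ0) (mkCfg hX hY hS (r δ) (r δ')
      (hδ'A.2.trans hparδ.symm) (by rw [hparδ]; exact hζ0) hζδ' ((hb δ' (Or.inr rfl)).trans hbδ)
      hs (hr δ hδA.1.1) (hr δ' hδ'A.1.1) (fun h => absurd h hδ'A.1.2)
      (fun h => absurd h hδA.1.2))

/-- for every set of conditions there are club many levels at which the conditions reflect -/
theorem exists_club_gen (hX : LadSet S X) (hY : LadSet S Y) (hS : S0 ⊆ S)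
    (D : Set (Cond X Y S0)) : ∃ C, IsClub C ∧ ∀ δ ∈ C, ∀ r ∈ D, δ ∈ r.d →
      ∃ r' ∈ D, (∀ ξ ∈ r'.supp, ξ < δ) ∧ ∃ t, t ≤ r ∧ t ≤ r' := by
  classical
  by_contra hcon
  push Not at hcon
  let Bad : Set Om := {δ | ∃ r ∈ D, δ ∈ r.d ∧ ∀ r' ∈ D, (∀ ξ ∈ r'.supp, ξ < δ) →
    ∀ t, t ≤ r → ¬ t ≤ r'}
  have hBad : IsStationary Bad := by
    intro C hC
    obtain ⟨δ, hδ, r, hr, hd, h⟩ := hcon C hC
    exact ⟨δ, ⟨r, hr, hd, h⟩, hδ⟩
  obtain ⟨δ0, r0, -⟩ := hBad.nonempty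
  let r : Om → Cond X Y S0 := fun δ => if h : δ ∈ Bad then h.choose else r0
  have hr : ∀ δ ∈ Bad, r δ ∈ D ∧ δ ∈ (r δ).d ∧ ∀ r' ∈ D, (∀ ξ ∈ r'.supp, ξ < δ) →
      ∀ t, t ≤ r δ → ¬ t ≤ r' := by
    intro δ h
    simp only [r, dif_pos h]
    exact h.choose_spec
  obtain ⟨δ', hδ', δ, hδ, hs, t, ht, ht'⟩ := exists_compat hX hY hS hBad r
    fun δ hδ => (hr δ hδ).2.1
  exact (hr δ hδ).2.2 (r δ') (hr δ' hδ').1 hs t ht ht'

end Pool.Agent.Lib.Pf5c9aa
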