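import Mathlib
import Pool.Agent.Lib.Pf5c9aa.Star

set_option autoImplicit false

open Ordinal Cardinal Set

namespace Pool.Agent.Lib.Pf5c9aa

variable {S S0 : Set Om} {X Y : Om → Set Om}

theorem half_insert (hX : LadSet S X) (hY : LadSet S Y) {s d : Finset Om} (hs : ∀ β ∈ s, β ∈ S)
    (hH : Half X Y s d) {α δ i ζ ρ : Om} (hα : α ∈ s) (hδ : δ ∈ S) (hiα : i < α)
    (hαζ : α < ζ) (hζδ : ζ < δ) (hsζ : ∀ β ∈ s, β < ζ) (hdζ : ∀ ε ∈ d, ε < ζ)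
    (trX : X δ ∩ Iio ζ = X α ∩ Iio i) (trY : Y δ ∩ Iio ζ = Y α ∩ Iio i)
    (hdρ : ∀ ε ∈ d, ε < α → ε < ρ) (nextX : ∃ e ∈ X α, ρ ≤ e ∧ e < i)
    (hne : ∀ β ∈ s, β ≠ α → X β ∩ Iio ρ ≠ X α ∩ Iio ρ ∧ Y β ∩ Iio ρ ≠ Y α ∩ Iio ρ) :
    Half X Y (insert δ s) (insert δ d) := by
  obtain ⟨ex, hex, hρex, hexi⟩ := nextX
  have hαS := hs α hα
  have hρi : ρ < i := hρex.trans_lt hexi
  have hρζ : ρ < ζ := hρi.trans (hiα.trans hαζ)
  -- classification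
  have cls : ∀ β ∈ insert δ s, ∀ ε ∈ insert δ d, ε ≤ β →
      (∃ b ∈ s, ∃ e ∈ d, e ≤ b ∧ X β ∩ Iio ε = X b ∩ Iio e ∧ Y β ∩ Iio ε = Y b ∩ Iio e) ∨
      (X β ∩ Iio ε = X α ∩ Iio i ∧ Y β ∩ Iio ε = Y α ∩ Iio i) ∨
      (X β ∩ Iio ε = X δ ∩ Iio δ ∧ Y β ∩ Iio ε = Y δ ∩ Iio δ) := by
    intro β hβ ε hε hεβ
    rw [Finset.mem_insert] at hβ hε
    rcases hβ with rfl | hβ
    · rcases hε with rfl | hε
      · exact Or.inr (Or.inr ⟨rfl, rfl⟩)
      · have hεζ := hdζ ε hε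
        rcases lt_or_ge ε α with h1 | h1
        · have hερ := hdρ ε hε h1
          exact Or.inl ⟨α, hα, ε, hε, h1.le, tr_mono trX hεζ.le (hερ.trans hρi).le,
            tr_mono trY hεζ.le (hερ.trans hρi).le⟩
        · refine Or.inr (Or.inl ⟨?_, ?_⟩)
          · ext ξ
            constructor
            · rintro ⟨h2, h3⟩
              rw [← trX]; exact ⟨h2, lt_trans h3 hεζ⟩
            · intro h2
              have h3 := h2
              rw [← trX] at h2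
              exact ⟨h2.1, lt_of_lt_of_le (lt_trans h3.2 hiα) h1⟩
          · ext ξ
            constructor
            · rintro ⟨h2, h3⟩
              rw [← trY]; exact ⟨h2, lt_trans h3 hεζ⟩
            · intro h2
              have h3 := h2
              rw [← trY] at h2
              exact ⟨h2.1, lt_of_lt_of_le (lt_trans h3.2 hiα) h1⟩
    · rcases hε with rfl | hε
      · exact absurd (hεβ.trans_lt (hsζ β hβ)) (not_lt.2 hζδ.le)
      · exact Or.inl ⟨β, hβ, ε, hε, hεβ, rfl, rfl⟩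
  -- the trace at `i` is new
  have noN : ∀ b ∈ s, ∀ e ∈ d, e ≤ b → X b ∩ Iio e ≠ X α ∩ Iio i := by
    intro b hb e he heb heq
    have h1 : ex ∈ X α ∩ Iio i := ⟨hex, hexi⟩
    rw [← heq] at h1
    have hexe : ex < e := h1.2
    by_cases hbα : b = α
    · subst hbα
      rcases heb.eq_or_lt with h2 | h2
      · subst h2
        obtain ⟨ξ, hξ, hξ'⟩ := hX.cof e hαS i hiα
        have h3 : ξ ∈ X e ∩ Iio e := ⟨hξ, hX.lt e hαS ξ hξ⟩
        rw [heq] at h3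
        exact absurd h3.2 (not_lt.2 hξ'.le)
      · exact absurd ((hdρ e he h2).trans_le hρex) (not_lt.2 hexe.le)
    · exact (hne b hb hbα).1 (tr_mono heq (hρex.trans hexe.le) hρi.le)
  -- the full trace of `δ` is new
  have noF : ∀ b e, e ≤ ζ → X b ∩ Iio e ≠ X δ ∩ Iio δ := by
    intro b e he heq
    obtain ⟨ξ, hξ, hξ'⟩ := hX.cof δ hδ ζ hζδ
    have h3 : ξ ∈ X δ ∩ Iio δ := ⟨hξ, hX.lt δ hδ ξ hξ⟩
    rw [← heq] at h3
    exact absurd (lt_of_lt_of_le h3.2 he) (not_lt.2 hξ'.le)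
  refine ⟨?_, ?_⟩
  · intro a ha b hb
    have hαδ : (slt (X α) (X δ)) ∧ slt (Y α) (Y δ) := by
      obtain ⟨e, he, h3⟩ := hX.cof α hαS i hiα
      obtain ⟨e', he', h3'⟩ := hY.cof α hαS i hiα
      exact ⟨slt_gap trX.symm he h3.le ((hX.lt α hαS e he).trans hαζ),
        slt_gap trY.symm he' h3'.le ((hY.lt α hαS e' he').trans hαζ)⟩
    have x1 : X δ ∩ Iio ρ = X α ∩ Iio ρ := tr_mono trX hρζ.le hρi.le
    have y1 : Y δ ∩ Iio ρ = Y α ∩ Iio ρ := tr_mono trY hρζ.le hρi.le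
    rw [Finset.mem_insert] at ha hb
    rcases ha with rfl | ha <;> rcases hb with rfl | hb
    · exact fun h => absurd h (slt_asymm h)
    · by_cases hbα : b = α
      · subst hbα
        exact fun h => absurd hαδ.1 (slt_asymm h)
      · obtain ⟨n1, n2⟩ := hne b hb hbα
        have a1 : slt (X a) (X b) ↔ slt (X α) (X b) :=
          slt_transfer x1 rfl (by rw [x1]; exact n1.symm)
        have a3 : slt (Y a) (Y b) ↔ slt (Y α) (Y b) :=
          slt_transfer y1 rfl (by rw [y1]; exact n2.symm)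
        rw [a1, a3]
        exact hH.1 α hα b hb
    · by_cases hbα : a = α
      · subst hbα
        exact fun _ => hαδ.2
      · obtain ⟨n1, n2⟩ := hne a ha hbα
        have a1 : slt (X a) (X b) ↔ slt (X a) (X α) :=
          slt_transfer rfl x1 (by rw [x1]; exact n1)
        have a3 : slt (Y a) (Y b) ↔ slt (Y a) (Y α) :=
          slt_transfer rfl y1 (by rw [y1]; exact n2)
        rw [a1, a3]
        exact hH.1 a ha α hα
    · exact hH.1 a ha b hb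
  · intro a ha b hb ε hε ε' hε' hεa hεb heq
    have hiζ : i ≤ ζ := (hiα.trans hαζ).le
    rcases cls a ha ε hε hεa with ⟨a', ha', e, he, hea, x1, y1⟩ | ⟨x1, y1⟩ | ⟨x1, y1⟩ <;>
    rcases cls b hb ε' hε' hεb with ⟨b', hb', e', he', heb, x2, y2⟩ | ⟨x2, y2⟩ | ⟨x2, y2⟩ <;>
      rw [y1, y2] <;> rw [x1, x2] at heq
    · exact hH.2 a' ha' b' hb' e he e' he' hea heb heq
    · exact absurd heq (noN a' ha' e he hea)
    · exact absurd heq (noF a' e (hdζ e he).le)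
    · exact absurd heq.symm (noN b' hb' e' he' heb)
    · exact absurd heq (noF α i hiζ)
    · exact absurd heq.symm (noF b' e' (hdζ e' he').le)
    · exact absurd heq.symm (noF α i hiζ)

/-- finitely many points below `α` lie below some smaller point -/
theorem LadSet.exists_lt (hX : LadSet S X) {α : Om} (hα : α ∈ S) {F : Set Om} (hF : F.Finite)
    (hFα : ∀ ξ ∈ F, ξ < α) : ∃ ρ < α, ∀ ξ ∈ F, ξ < ρ := by
  induction F, hF using Set.Finite.induction_on with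
  | empty =>
    obtain ⟨x, hx⟩ := hX.ne α hα
    exact ⟨x, hX.lt α hα x hx, by simp⟩
  | @insert a F _ _ ih =>
    obtain ⟨ρ, hρ, hρ'⟩ := ih fun ξ hξ => hFα ξ (Or.inr hξ)
    obtain ⟨e, he, he'⟩ := hX.cof α hα a (hFα a (Or.inl rfl))
    refine ⟨max ρ e, max_lt hρ (hX.lt α hα e he), ?_⟩
    rintro ξ (rfl | hξ)
    · exact he'.trans_le (le_max_right _ _)
    · exact (hρ' ξ hξ).trans_le (le_max_left _ _)

/-- two ladders differ below each of their suprema -/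
theorem LadSet.exists_ne (hX : LadSet S X) {α β : Om} (hα : α ∈ S) (hβ : β ∈ S) (hne : β ≠ α) :
    ∃ ρ < α, X β ∩ Iio ρ ≠ X α ∩ Iio ρ := by
  obtain ⟨e, he, he'⟩ : ∃ e ∈ X α, e ∉ X β := by
    rcases lt_or_gt_of_ne hne with h | h
    · obtain ⟨e, he, h1⟩ := hX.cof α hα β h
      exact ⟨e, he, fun h2 => absurd (hX.lt β hβ e h2) (not_lt.2 h1.le)⟩
    · by_contra hcon
      push Not at hcon
      apply hX.infinite hα
      refine (hX.fin β hβ α h).subset fun ξ hξ => ⟨hcon ξ hξ, hX.lt α hα ξ hξ⟩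
  obtain ⟨e', he2, he3⟩ := hX.cof α hα e (hX.lt α hα e he)
  refine ⟨e', hX.lt α hα e' he2, fun heq => ?_⟩
  have h1 : e ∈ X α ∩ Iio e' := ⟨he, he3⟩
  rw [← heq] at h1
  exact he' h1.1

/-- stationary many ordinals can be added to a condition -/
theorem stationary_add (hX : LadSet S X) (hY : LadSet S Y) (hS : S0 ⊆ S)
    (hgood : ∀ α ∈ S0, ∀ ρ < α, ∃ i, ρ < i ∧ i < α ∧ Good X Y S α i) {C : Set Om}
    (hC : IsClub C) (hCS : ∀ α ∈ S, α ∈ C → α ∈ S0) (p : Cond X Y S0) :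
    IsStationary {δ | (∀ ξ ∈ p.supp, ξ < δ) ∧ ∃ q : Cond X Y S0, q ≤ p ∧ δ ∈ q.s ∧ δ ∈ q.d} := by
  classical
  obtain ⟨α, hα⟩ := p.ne
  have hαS0 := p.mem α hα
  have hαS := hS hαS0
  have hβS : ∀ β ∈ p.s, β ∈ S := fun β hβ => hS (p.mem β hβ)
  -- the bound `ρ`
  have hdx : ∀ β : Om, ∃ ρ < α, β ∈ p.s → β ≠ α → X β ∩ Iio ρ ≠ X α ∩ Iio ρ ∧
      Y β ∩ Iio ρ ≠ Y α ∩ Iio ρ := by
    intro β
    by_cases h : β ∈ p.s ∧ β ≠ α
    · obtain ⟨ρ1, h1, h1'⟩ := hX.exists_ne hαS (hβS β h.1) h.2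
      obtain ⟨ρ2, h2, h2'⟩ := hY.exists_ne hαS (hβS β h.1) h.2
      refine ⟨max ρ1 ρ2, max_lt h1 h2, fun _ _ => ⟨fun h3 => h1' ?_, fun h3 => h2' ?_⟩⟩
      · exact tr_mono h3 (le_max_left _ _) (le_max_left _ _)
      · exact tr_mono h3 (le_max_right _ _) (le_max_right _ _)
    · obtain ⟨x, hx⟩ := hX.ne α hαS
      exact ⟨x, hX.lt α hαS x hx, fun h1 h2 => absurd ⟨h1, h2⟩ h⟩
  choose ρf hρf hρf' using hdx
  obtain ⟨ρ, hρα, hρ⟩ := hX.exists_lt hαS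
    (F := {ε | ε ∈ p.d ∧ ε < α} ∪ ρf '' (p.s : Set Om))
    ((p.d.finite_toSet.subset fun ε hε => hε.1).union (p.s.finite_toSet.image _)) (by
      rintro ξ (hξ | ⟨β, -, rfl⟩)
      · exact hξ.2
      · exact hρf β)
  obtain ⟨ex, hex, hρex⟩ := hX.cof α hαS ρ hρα
  obtain ⟨ey, hey, hρey⟩ := hY.cof α hαS ρ hρα
  obtain ⟨i, hi, hiα, hG⟩ := hgood α hαS0 (max ex ey)
    (max_lt (hX.lt α hαS ex hex) (hY.lt α hαS ey hey))
  have hexi : ex < i := (le_max_left _ _).trans_lt hi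
  have heyi : ey < i := (le_max_right _ _).trans_lt hi
  obtain ⟨ζ, hζ⟩ := exists_bound (p.supp_finite.union (finite_singleton α))
  have hαζ : α < ζ := hζ α (Or.inr rfl)
  have hst := hG ζ (fun ξ hξ => (lt_trans hξ.2 hiα).trans hαζ)
    (fun ξ hξ => (lt_trans hξ.2 hiα).trans hαζ)
  intro T hT
  obtain ⟨δ, ⟨hδS, trX, trY⟩, ⟨hδC, hδT⟩, hζδ⟩ := exists_mem_gt hst (IsClub.inter' hC hT) ζ
  have hne : ∀ β ∈ p.s, β ≠ α → X β ∩ Iio ρ ≠ X α ∩ Iio ρ ∧ Y β ∩ Iio ρ ≠ Y α ∩ Iio ρ := by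
    intro β hβ hβα
    have h1 := hρ (ρf β) (Or.inr ⟨β, hβ, rfl⟩)
    obtain ⟨h2, h3⟩ := hρf' β hβ hβα
    exact ⟨fun h4 => h2 (tr_mono h4 h1.le h1.le), fun h4 => h3 (tr_mono h4 h1.le h1.le)⟩
  have hsζ : ∀ β ∈ p.s, β < ζ := fun β hβ => hζ β (Or.inl (Or.inl hβ))
  have hdζ : ∀ β ∈ p.d, β < ζ := fun β hβ => hζ β (Or.inl (Or.inr hβ))
  have hdρ : ∀ ε ∈ p.d, ε < α → ε < ρ := fun ε hε h => hρ ε (Or.inl ⟨hε, h⟩)
  refine ⟨δ, ⟨fun ξ hξ => (hζ ξ (Or.inl hξ)).trans hζδ, ⟨insert δ p.s, insert δ p.d,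
    Finset.insert_nonempty _ _, ?_, ?_, ?_⟩, ⟨Finset.subset_insert _ _, Finset.subset_insert _ _⟩,
    Finset.mem_insert_self _ _, Finset.mem_insert_self _ _⟩, hδT⟩
  · intro β hβ
    rcases Finset.mem_insert.1 hβ with rfl | hβ
    · exact hCS β hδS hδC
    · exact p.mem β hβ
  · exact half_insert hX hY hβS p.h hα hδS hiα hαζ hζδ hsζ hdζ trX trY hdρ
      ⟨ex, hex, hρex.le, hexi⟩ hne
  · exact half_insert hY hX hβS p.h' hα hδS hiα hαζ hζδ hsζ hdζ trY trX hdρ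
      ⟨ey, hey, hρey.le, heyi⟩ fun β hβ h => ⟨(hne β hβ h).2, (hne β hβ h).1⟩

end Pool.Agent.Lib.Pf5c9aa
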