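import Mathlib
import Pool.Agent.Lib.Pf5c9aa.Add

set_option autoImplicit false

open Ordinal Cardinal Set

namespace Pool.Agent.Lib.Pf5c9aa

variable {S S0 : Set Om} {X Y : Om → Set Om}

theorem slt_irrefl (U : Set Om) : ¬ slt U U := fun h => slt_asymm h h

theorem half_singleton (X Y : Om → Set Om) (α ξ : Om) : Half X Y {α} {ξ} := by
  refine ⟨?_, ?_⟩
  · intro a ha b hb h
    rw [Finset.mem_singleton] at ha hb
    subst ha; subst hb
    exact absurd h (slt_irrefl _)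
  · intro a ha b hb ε hε ε' hε' _ _ _
    rw [Finset.mem_singleton] at ha hb hε hε'
    subst ha; subst hb; subst hε; subst hε'
    rfl

theorem half_insert_d {s d : Finset Om} (h : Half X Y s d) {δ : Om} (hδ : ∀ α ∈ s, α < δ) :
    Half X Y s (insert δ d) := by
  refine ⟨h.1, ?_⟩
  intro a ha b hb ε hε ε' hε' hεa hεb
  rw [Finset.mem_insert] at hε hε'
  rcases hε with rfl | hε
  · exact absurd (hδ a ha) (not_lt.2 hεa)
  · rcases hε' with rfl | hε'
    · exact absurd (hδ b hb) (not_lt.2 hεb)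
    · exact h.2 a ha b hb ε hε ε' hε' hεa hεb

theorem cond_injective : Function.Injective fun p : Cond X Y S0 => (p.s, p.d) := by
  intro p q h
  cases p; cases q
  simp only [Prod.mk.injEq] at h
  obtain ⟨rfl, rfl⟩ := h
  rfl

theorem cond_countable (γ : Om) : {p : Cond X Y S0 | ∀ ξ ∈ p.supp, ξ < γ}.Countable := by
  have h1 := suppPair_countable γ
  exact (h1.preimage_of_injOn (f := fun p : Cond X Y S0 => (p.s, p.d))
    cond_injective.injOn).mono fun p hp => hp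

theorem proper_cond (hX : LadSet S X) (hY : LadSet S Y) (hS : S0 ⊆ S)
    (hne : Nonempty (Cond X Y S0)) : Proper (Cond X Y S0) := by
  classical
  obtain ⟨p0⟩ := hne
  obtain ⟨α0, hα0⟩ := p0.ne
  choose 𝒢 h𝒢 hgen using exists_club_gen (X := X) (Y := Y) (S0 := S0) hX hY hS
  let pt : Om → Cond X Y S0 := fun ξ => ⟨{α0}, {ξ}, Finset.singleton_nonempty _,
    (by intro α hα; rw [Finset.mem_singleton] at hα; rw [hα]; exact p0.mem α0 hα0),
    half_singleton X Y α0 ξ, half_singleton Y X α0 ξ⟩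
  have hpt : ∀ ξ γ, (∀ η ∈ (pt ξ).supp, η < γ) ↔ α0 < γ ∧ ξ < γ := by
    intro ξ γ
    constructor
    · intro h
      exact ⟨h α0 (Or.inl (by simp [pt])), h ξ (Or.inr (by simp [pt]))⟩
    · rintro ⟨h1, h2⟩ η (hη | hη)
      · have : η = α0 := by simpa [pt] using hη
        rw [this]; exact h1
      · have : η = ξ := by simpa [pt] using hη
        rw [this]; exact h2
  refine ⟨{Z | Z.Countable ∧ ∃ δ, α0 < δ ∧ (∀ p : Cond X Y S0, Sum.inl p ∈ Z ↔
    ∀ ξ ∈ p.supp, ξ < δ) ∧ ∀ D : Set (Cond X Y S0), Sum.inr D ∈ Z → δ ∈ 𝒢 D},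
    ⟨fun Z hZ => hZ.1, ?_, ?_⟩, ?_⟩
  · -- cofinal
    intro Z hZ
    have hD : {D : Set (Cond X Y S0) | Sum.inr D ∈ Z}.Countable :=
      hZ.preimage_of_injOn Sum.inr_injective.injOn
    have hP : {p : Cond X Y S0 | Sum.inl p ∈ Z}.Countable :=
      hZ.preimage_of_injOn Sum.inl_injective.injOn
    have hcount := hD.to_subtype
    have hclub : IsClub (⋂ D : {D : Set (Cond X Y S0) | Sum.inr D ∈ Z}, 𝒢 D.1) :=
      IsClub.iInter_of_countable cof_Om fun D => h𝒢 D.1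
    obtain ⟨b, hb⟩ := exists_gt_of_countable (A := (⋃ p ∈ {p : Cond X Y S0 | Sum.inl p ∈ Z},
      p.supp) ∪ {α0}) ((hP.biUnion fun p _ => p.supp_finite.countable).union
        (countable_singleton _))
    obtain ⟨δ, hδ, hle⟩ := hclub.isCofinal b
    rw [mem_iInter] at hδ
    refine ⟨{z | (∃ p : Cond X Y S0, z = Sum.inl p ∧ ∀ ξ ∈ p.supp, ξ < δ) ∨
      ∃ D : Set (Cond X Y S0), z = Sum.inr D ∧ Sum.inr D ∈ Z}, ⟨?_, δ, ?_, ?_, ?_⟩, ?_⟩
    · have h1 : {z : Cond X Y S0 ⊕ Set (Cond X Y S0) |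
          (∃ p : Cond X Y S0, z = Sum.inl p ∧ ∀ ξ ∈ p.supp, ξ < δ) ∨
          ∃ D : Set (Cond X Y S0), z = Sum.inr D ∧ Sum.inr D ∈ Z} =
          (Sum.inl '' {p : Cond X Y S0 | ∀ ξ ∈ p.supp, ξ < δ}) ∪
          (Sum.inr '' {D : Set (Cond X Y S0) | Sum.inr D ∈ Z}) := by
        ext z
        constructor
        · rintro (⟨p, rfl, hp⟩ | ⟨D, rfl, hD⟩)
          · exact Or.inl ⟨p, hp, rfl⟩
          · exact Or.inr ⟨D, hD, rfl⟩
        · rintro (⟨p, hp, rfl⟩ | ⟨D, hD, rfl⟩)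
          · exact Or.inl ⟨p, rfl, hp⟩
          · exact Or.inr ⟨D, rfl, hD⟩
      rw [h1]
      exact ((cond_countable δ).image _).union (hD.image _)
    · exact (hb α0 (Or.inr rfl)).trans_le hle
    · intro p
      constructor
      · rintro (⟨q, hq, h⟩ | ⟨D, hD, -⟩)
        · rw [Sum.inl_injective hq]; exact h
        · exact absurd hD (by simp)
      · intro h
        exact Or.inl ⟨p, rfl, h⟩
    · rintro D (⟨q, hq, -⟩ | ⟨D', hD', h⟩)
      · exact absurd hq (by simp)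
      · rw [Sum.inr_injective hD']
        exact hδ ⟨D', h⟩
    · rintro (p | D) hz
      · refine Or.inl ⟨p, rfl, fun ξ hξ => ?_⟩
        refine (hb ξ (Or.inl ?_)).trans_le hle
        rw [mem_iUnion₂]
        exact ⟨p, hz, hξ⟩
      · exact Or.inr ⟨D, rfl, hz⟩
  · -- closed
    intro Z hZ hmono
    choose hcnt δ hα0δ hinl hinr using hZ
    have hδ : Monotone δ := by
      intro m n hmn
      by_contra hcon
      have h1 : Sum.inl (pt (δ n)) ∈ Z m :=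
        (hinl m (pt (δ n))).2 ((hpt _ _).2 ⟨hα0δ m, not_le.1 hcon⟩)
      have h2 := (hinl n (pt (δ n))).1 (hmono hmn h1)
      exact lt_irrefl _ ((hpt _ _).1 h2).2
    obtain ⟨b, hb⟩ := exists_isLUB δ
    refine ⟨countable_iUnion hcnt, b, (hα0δ 0).trans_le (hb.1 ⟨0, rfl⟩), ?_, ?_⟩
    · intro p
      rw [mem_iUnion]
      constructor
      · rintro ⟨n, hn⟩ ξ hξ
        exact ((hinl n p).1 hn ξ hξ).trans_le (hb.1 ⟨n, rfl⟩)
      · intro h
        obtain ⟨_, ⟨n, rfl⟩, hn⟩ := exists_of_isLUB hb (range_nonempty δ) p.supp_finite h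
        exact ⟨n, (hinl n p).2 hn⟩
    · intro D hD
      rw [mem_iUnion] at hD
      obtain ⟨n, hn⟩ := hD
      have h1 : IsLUB (range fun m => δ (n + m)) b := by
        refine ⟨?_, ?_⟩
        · rintro _ ⟨m, rfl⟩; exact hb.1 ⟨n + m, rfl⟩
        · intro c hc
          apply hb.2
          rintro _ ⟨m, rfl⟩
          exact (hδ (by omega : m ≤ n + m)).trans (hc ⟨m, rfl⟩)
      refine (h𝒢 D).isLUB_mem ?_ (range_nonempty _) h1
      rintro _ ⟨m, rfl⟩
      exact hinr (n + m) D (hmono (by omega : n ≤ n + m) hn)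
  · -- generic conditions
    rintro Z ⟨-, δ, -, hinl, hinr⟩ p hp
    have hpδ := (hinl p).1 hp
    have hsδ : ∀ α ∈ p.s, α < δ := fun α hα => hpδ α (Or.inl hα)
    refine ⟨⟨p.s, insert δ p.d, p.ne, p.mem, half_insert_d p.h hsδ, half_insert_d p.h' hsδ⟩,
      ⟨subset_rfl, Finset.subset_insert _ _⟩, ?_⟩
    intro D hD hDZ r hr
    obtain ⟨r1, hr1, hr1r⟩ := hD r
    have hδr1 : δ ∈ r1.d := hr1r.2 (hr.2 (Finset.mem_insert_self _ _))
    obtain ⟨r', hr', hs, t, ht, ht'⟩ := hgen D δ (hinr D hDZ) r1 hr1 hδr1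
    exact ⟨r', hr', (hinl r').2 hs, t, ht.trans hr1r, ht'⟩

/-- the name of the generic set -/
def nm (X Y : Om → Set Om) (S0 : Set Om) : Om → Set (Cond X Y S0) := fun ξ => {p | ξ ∈ p.s}

theorem forces_mono {P : Type} [Preorder P] {N : Om → Set P} {p q : P} {ξ : Om}
    (h : Forces N p ξ) (hq : q ≤ p) : Forces N q ξ := fun r hr => h r (hr.trans hq)

theorem stationary_nm (hX : LadSet S X) (hY : LadSet S Y) (hS : S0 ⊆ S)
    (hgood : ∀ α ∈ S0, ∀ ρ < α, ∃ i, ρ < i ∧ i < α ∧ Good X Y S α i) {C : Set Om}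
    (hC : IsClub C) (hCS : ∀ α ∈ S, α ∈ C → α ∈ S0) : ForcesStationary (nm X Y S0) := by
  classical
  intro 𝒞 p0 hclub
  let D : Om → Set (Cond X Y S0) := fun ξ => {r | r ≤ p0 ∧ ∃ η, ξ < η ∧ Forces 𝒞 r η}
  choose 𝒢 h𝒢 hgen using exists_club_gen (X := X) (Y := Y) (S0 := S0) hX hY hS
  have hη : ∀ q : Om × Cond X Y S0, ∃ η, q.2 ∈ D q.1 → q.1 < η ∧ Forces 𝒞 q.2 η := by
    intro q
    by_cases h : q.2 ∈ D q.1
    · obtain ⟨-, η, h1, h2⟩ := h
      exact ⟨η, fun _ => ⟨h1, h2⟩⟩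
    · exact ⟨Classical.arbitrary Om, fun h' => absurd h' h⟩
  choose η hη using hη
  have hE1 := isClub_diag (fun ρ : Om => ({ρ} : Set Om)) (fun _ => finite_singleton _) supp_om
    (fun ξ => 𝒢 (D ξ)) (fun ξ => h𝒢 _)
  have hE2 := isClub_diag (fun q : Om × Cond X Y S0 => ({q.1} : Set Om) ∪ q.2.supp)
    (fun q => (finite_singleton _).union q.2.supp_finite)
    (supp_prod (fun ρ : Om => ({ρ} : Set Om)) (fun p : Cond X Y S0 => p.supp) supp_om
      cond_countable) (fun q => Ioi (η q)) (fun q => isClub_Ioi _)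
  obtain ⟨δ, ⟨hp0δ, q, hq, hδs, hδd⟩, hδ1, hδ2⟩ :=
    stationary_add hX hY hS hgood hC hCS p0 (IsClub.inter' hE1 hE2)
  refine ⟨q, hq, δ, fun r hr => ⟨r, le_rfl, q, hδs, hr⟩, ?_⟩
  refine hclub.2 δ ?_ q hq ?_
  · obtain ⟨a, ha⟩ := p0.ne
    exact ⟨a, hp0δ a (Or.inl ha)⟩
  · intro ξ hξ r hr
    obtain ⟨r1, hr1, ζ, hζ, hforce⟩ := hclub.1 ξ r (hr.trans hq)
    have hr1D : r1 ∈ D ξ := ⟨hr1.trans (hr.trans hq), ζ, hζ, hforce⟩
    have hδr1 : δ ∈ r1.d := hr1.2 (hr.2 hδd)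
    obtain ⟨r', hr', hs, t, ht, ht'⟩ := hgen (D ξ) δ (hδ1 ξ (by simpa using hξ)) r1 hr1D hδr1
    obtain ⟨h1, h2⟩ := hη (ξ, r') hr'
    refine ⟨t, ht.trans hr1, η (ξ, r'), h1, ?_, forces_mono h2 ht'⟩
    apply hδ2 (ξ, r')
    rintro x (hx | hx)
    · rw [mem_singleton_iff] at hx; rw [hx]; exact hξ
    · exact hs x hx

end Pool.Agent.Lib.Pf5c9aa
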