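import Mathlib
import Pool.Agent.Lib.Pf5c9aa.Forc

set_option autoImplicit false

open Ordinal Cardinal Set

namespace Pool.Agent.Lib.Pf5c9aa

/-- the ranges of a ladder system -/
theorem ladSet_of_ladder {S : Set Om} {x : Om → ℕ → Om} (h : IsLadder S x) :
    LadSet S (fun α => range (x α)) where
  lt := by
    rintro α hα _ ⟨n, rfl⟩
    exact (h α hα).2.1 n
  cof := by
    intro α hα ρ hρ
    obtain ⟨n, hn⟩ := (h α hα).2.2 ρ hρ
    exact ⟨x α (n + 1), ⟨n + 1, rfl⟩, hn.trans_lt ((h α hα).1 (Nat.lt_succ_self n))⟩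
  fin := by
    intro α hα ρ hρ
    obtain ⟨n, hn⟩ := (h α hα).2.2 ρ hρ
    refine ((Set.finite_Iio n).image (x α)).subset ?_
    rintro _ ⟨⟨m, rfl⟩, hm⟩
    refine ⟨m, ?_, rfl⟩
    by_contra hcon
    exact absurd (lt_of_lt_of_le hm hn) (not_lt.2 ((h α hα).1.monotone (not_lt.1 hcon)))
  ne := fun α _ => range_nonempty _

/-- the lexicographic order in terms of the ranges -/
theorem lex_iff {S : Set Om} {x : Om → ℕ → Om} (h : IsLadder S x) {α β : Om} (hα : α ∈ S)
    (hβ : β ∈ S) : toLex (x α) < toLex (x β) ↔ slt (range (x α)) (range (x β)) := by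
  have hma := (h α hα).1
  have hmb := (h β hβ).1
  constructor
  · rintro ⟨n, h1, h2⟩
    have h1' : ∀ m < n, x α m = x β m := h1
    have h2' : x α n < x β n := h2
    refine ⟨x α n, ⟨n, rfl⟩, ?_, ?_⟩
    · rintro ⟨m, hm⟩
      rcases lt_or_ge m n with h3 | h3
      · rw [← h1' m h3] at hm
        exact absurd (hma.injective hm) h3.ne
      · have := hmb.monotone h3
        rw [hm] at this
        exact absurd h2' (not_lt.2 this)
    · ext ξ
      constructor
      · rintro ⟨⟨m, rfl⟩, hm⟩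
        have h3 : m < n := hma.lt_iff_lt.1 hm
        exact ⟨⟨m, (h1' m h3).symm⟩, hm⟩
      · rintro ⟨⟨m, rfl⟩, hm⟩
        have h3 : m < n := hmb.lt_iff_lt.1 (lt_trans hm h2')
        refine ⟨⟨m, h1' m h3⟩, hm⟩
  · rintro ⟨_, ⟨n, rfl⟩, h1, h2⟩
    have h3 : ∀ m, m ≤ n → ∀ k < m, x α k = x β k := by
      intro m
      induction m with
      | zero => intro _ k hk; omega
      | succ m ih =>
        intro hm k hk
        rcases Nat.lt_succ_iff_lt_or_eq.1 hk with hk | hk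
        · exact ih (by omega) k hk
        · subst hk
          have ih' := ih (by omega)
          -- `x α k ∈ range (x β)`
          have h4 : x α k ∈ range (x α) ∩ Iio (x α n) := ⟨⟨k, rfl⟩, hma (by omega)⟩
          rw [h2] at h4
          obtain ⟨⟨j, hj⟩, -⟩ := h4
          have h5 : k ≤ j := by
            by_contra hcon
            have h6 := ih' j (by omega)
            rw [hj] at h6
            exact absurd (hma.injective h6) (by omega)
          -- `x β k ∈ range (x α)`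
          have h6 : x β k ∈ range (x β) ∩ Iio (x α n) := by
            refine ⟨⟨k, rfl⟩, ?_⟩
            refine lt_of_le_of_lt (hmb.monotone h5) ?_
            rw [hj]; exact hma (by omega)
          rw [← h2] at h6
          obtain ⟨⟨i, hi⟩, -⟩ := h6
          have h7 : k ≤ i := by
            by_contra hcon
            have h8 := ih' i (by omega)
            rw [hi] at h8
            exact absurd (hmb.injective h8) (by omega)
          apply le_antisymm
          · rw [← hi]; exact hma.monotone h7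
          · rw [← hj]; exact hmb.monotone h5
    refine ⟨n, h3 n le_rfl, ?_⟩
    show x α n < x β n
    by_contra hcon
    rcases (not_lt.1 hcon).eq_or_lt with h4 | h4
    · exact h1 ⟨n, h4⟩
    · have h5 : x β n ∈ range (x β) ∩ Iio (x α n) := ⟨⟨n, rfl⟩, h4⟩
      rw [← h2] at h5
      obtain ⟨⟨i, hi⟩, -⟩ := h5
      have h6 : i < n := hma.lt_iff_lt.1 (by rw [hi]; exact h4)
      have h7 := h3 n le_rfl i h6
      rw [hi] at h7
      exact absurd (hmb.injective h7) (by omega)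

theorem ladder_injOn {S : Set Om} {x : Om → ℕ → Om} (h : IsLadder S x) {α β : Om} (hα : α ∈ S)
    (hβ : β ∈ S) (heq : x α = x β) : α = β := by
  by_contra hne
  obtain ⟨ρ, hρ, h1⟩ := (ladSet_of_ladder h).exists_ne hα hβ (Ne.symm hne)
  exact h1 (by simp only [heq])

variable {S : Set Om} {X : Om → Set Om}

/-- the set of points that are approximated from the left -/
def Lft (X : Om → Set Om) (T : Set Om) : Set Om :=
  {α | α ∈ T ∧ ∀ ρ < α, ∃ β ∈ T, X β ∩ Iio ρ = X α ∩ Iio ρ ∧ slt (X β) (X α)}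

theorem lft_stationary (hX : LadSet S X)
    (htri : ∀ α ∈ S, ∀ β ∈ S, α ≠ β → slt (X α) (X β) ∨ slt (X β) (X α)) {T W : Set Om}
    (hTS : T ⊆ S) (hW : IsStationary W) (hWT : W ⊆ T) : (W ∩ Lft X T).Nonempty := by
  classical
  by_contra hcon
  rw [Set.not_nonempty_iff_eq_empty] at hcon
  have h1 : ∀ α : Om, ∃ ρ, α ∈ W → ρ < α ∧ ∀ β ∈ T, X β ∩ Iio ρ = X α ∩ Iio ρ →
      ¬ slt (X β) (X α) := by
    intro α
    by_cases hα : α ∈ W
    · have h2 : α ∉ Lft X T := fun h => by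
        have : α ∈ W ∩ Lft X T := ⟨hα, h⟩
        rw [hcon] at this
        exact this
      by_contra h3
      push Not at h3
      exact h2 ⟨hWT hα, fun ρ hρ => (h3 ρ).2 hρ⟩
    · exact ⟨α, fun h => absurd h hα⟩
  choose ρ hρ using h1
  obtain ⟨⟨ρ0, a⟩, hV⟩ := fodor (fun q : Om × Finset Om => ({q.1} : Set Om) ∪ (q.2 : Set Om))
    (fun q => (finite_singleton _).union q.2.finite_toSet)
    (supp_prod (fun ρ : Om => ({ρ} : Set Om)) (fun F : Finset Om => (F : Set Om)) supp_om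
      supp_fin) hW (fun α => (ρ α, trF X α (ρ α))) (by
        intro α hα ξ hξ
        have hρα := (hρ α hα).1
        rcases hξ with hξ | hξ
        · rw [mem_singleton_iff] at hξ; rw [hξ]; exact hρα
        · simp only at hξ
          rw [coe_trF hX (hTS (hWT hα)) hρα] at hξ
          exact lt_trans hξ.2 hρα)
  obtain ⟨α, hα, -, -⟩ := exists_mem_gt hV IsClub.univ (Classical.arbitrary Om)
  obtain ⟨β, hβ, -, hαβ⟩ := exists_mem_gt hV IsClub.univ α
  obtain ⟨hαW, hαeq⟩ := hα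
  obtain ⟨hβW, hβeq⟩ := hβ
  rw [Prod.mk.injEq] at hαeq hβeq
  have e1 : X α ∩ Iio ρ0 = a := by
    rw [← coe_trF hX (hTS (hWT hαW)) (by rw [← hαeq.1]; exact (hρ α hαW).1), ← hαeq.1, hαeq.2]
  have e2 : X β ∩ Iio ρ0 = a := by
    rw [← coe_trF hX (hTS (hWT hβW)) (by rw [← hβeq.1]; exact (hρ β hβW).1), ← hβeq.1, hβeq.2]
  rcases htri α (hTS (hWT hαW)) β (hTS (hWT hβW)) hαβ.ne with h | h
  · exact (hρ β hβW).2 α (hWT hαW) (by rw [hβeq.1, e1, e2]) h
  · exact (hρ α hαW).2 β (hWT hβW) (by rw [hαeq.1, e1, e2]) h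

/-- stationary many ladders contain a dense suborder -/
theorem exists_dense (hX : LadSet S X)
    (htri : ∀ α ∈ S, ∀ β ∈ S, α ≠ β → slt (X α) (X β) ∨ slt (X β) (X α)) {T : Set Om}
    (hTS : T ⊆ S) (hT : IsStationary T) : ∃ D ⊆ T, D.Nonempty ∧
      (∀ α ∈ D, ∃ β ∈ D, slt (X β) (X α)) ∧
      ∀ α ∈ D, ∀ β ∈ D, slt (X α) (X β) → ∃ γ ∈ D, slt (X α) (X γ) ∧ slt (X γ) (X β) := by
  obtain ⟨C, hC, hgood⟩ := exists_good hX hX hTS
  have hTC : IsStationary (T ∩ C) := by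
    intro E hE
    obtain ⟨δ, h1, h2, h3⟩ := hT (IsClub.inter' hC hE)
    exact ⟨δ, ⟨h1, h2⟩, h3⟩
  set T' := T ∩ C with hT'
  have hT'S : T' ⊆ S := fun α hα => hTS hα.1
  have hD : Lft X T' ⊆ T' := fun α hα => hα.1
  -- approximations from the left inside the set itself
  have key : ∀ α ∈ Lft X T', ∀ ρ < α, ∃ β ∈ Lft X T', X β ∩ Iio ρ = X α ∩ Iio ρ ∧
      slt (X β) (X α) := by
    intro α hα ρ hρ
    obtain ⟨β, hβ, h1, ξ, hξ, hξ', h2⟩ := hα.2 ρ hρ
    have hβS := hT'S hβ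
    have hαS := hT'S hα.1
    have hρβ : ρ < β := by
      by_contra hcon
      apply hX.infinite hβS
      refine (hX.fin α hαS ρ hρ).subset ?_
      rw [← h1]
      exact fun η hη => ⟨hη, (hX.lt β hβS η hη).trans_le (not_lt.1 hcon)⟩
    obtain ⟨i, hi, hiβ, hG⟩ := hgood β hβ.1 hβ.2 (max ξ ρ) (max_lt (hX.lt β hβS ξ hξ) hρβ)
    have hξi : ξ < i := (le_max_left _ _).trans_lt hi
    have hρi : ρ < i := (le_max_right _ _).trans_lt hi
    have hst := hG i (fun η hη => hη.2) (fun η hη => hη.2)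
    have hst' : IsStationary ({β' | β' ∈ T ∧ X β' ∩ Iio i = X β ∩ Iio i ∧
        X β' ∩ Iio i = X β ∩ Iio i} ∩ C) := by
      intro E hE
      obtain ⟨δ, h1, h2, h3⟩ := hst (IsClub.inter' hC hE)
      exact ⟨δ, ⟨h1, h2⟩, h3⟩
    obtain ⟨β', ⟨⟨hβ'T, htr, -⟩, hβ'C⟩, hβ'L⟩ := lft_stationary hX htri hT'S hst'
      (fun β' hβ' => ⟨hβ'.1.1, hβ'.2⟩)
    refine ⟨β', hβ'L, ?_, ξ, ?_, hξ', ?_⟩
    · rw [tr_mono htr hρi.le hρi.le, h1]
    · have : ξ ∈ X β ∩ Iio i := ⟨hξ, hξi⟩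
      rw [← htr] at this
      exact this.1
    · rw [tr_mono htr hξi.le hξi.le, h2]
  refine ⟨Lft X T', fun α hα => hα.1.1, ?_, ?_, ?_⟩
  · obtain ⟨α, -, hα⟩ := lft_stationary hX htri hT'S hTC subset_rfl
    exact ⟨α, hα⟩
  · intro α hα
    obtain ⟨e, he⟩ := hX.ne α (hT'S hα.1)
    obtain ⟨β, hβ, -, h⟩ := key α hα e (hX.lt α (hT'S hα.1) e he)
    exact ⟨β, hβ, h⟩
  · rintro α hα β hβ ⟨ξ, hξ, hξ', h⟩
    have hαS := hT'S hα.1
    have hβS := hT'S hβ.1
    have hξα := hX.lt α hαS ξ hξ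
    have hξβ : ξ < β := by
      by_contra hcon
      apply hX.infinite hβS
      refine (hX.fin α hαS ξ hξα).subset ?_
      rw [h]
      exact fun η hη => ⟨hη, (hX.lt β hβS η hη).trans_le (not_lt.1 hcon)⟩
    obtain ⟨e, he, hξe⟩ := hX.cof β hβS ξ hξβ
    obtain ⟨γ, hγ, htr, hs⟩ := key β hβ e (hX.lt β hβS e he)
    refine ⟨γ, hγ, ⟨ξ, hξ, ?_, ?_⟩, hs⟩
    · intro h1
      have : ξ ∈ X γ ∩ Iio e := ⟨h1, hξe⟩
      rw [htr] at this
      exact hξ' this.1
    · rw [h, tr_mono htr hξe.le hξe.le]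

/-- the index set, as a type without its usual order -/
structure Idx (S : Set Om) : Type where
  val : Om
  mem : val ∈ S

theorem Idx.ext' {S : Set Om} {a b : Idx S} (h : a.val = b.val) : a = b := by
  cases a; cases b; simp_all

/-- the linear order of the ladders indexed by `S` -/
noncomputable abbrev ladOrder {S : Set Om} {x : Om → ℕ → Om} (h : IsLadder S x) :
    LinearOrder (Idx S) :=
  LinearOrder.lift' (fun α : Idx S => toLex (x α.val)) fun α β heq =>
    Idx.ext' (ladder_injOn h α.mem β.mem (toLex_inj.1 heq))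

theorem not_sigmaScattered {S : Set Om} {x : Om → ℕ → Om} (h : IsLadder S x)
    (hS : IsStationary S) : ¬ @SigmaScattered (Idx S) (ladOrder h) := by
  let _ := ladOrder h
  rintro ⟨A, hA, hsc⟩
  have hX := ladSet_of_ladder h
  have hlt : ∀ α β : Idx S, α < β ↔ slt (range (x α.1)) (range (x β.1)) :=
    fun α β => lex_iff h α.2 β.2
  have htri : ∀ α ∈ S, ∀ β ∈ S, α ≠ β → slt (range (x α)) (range (x β)) ∨
      slt (range (x β)) (range (x α)) := by
    intro α hα β hβ hne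
    have hne' : (⟨α, hα⟩ : Idx S) ≠ ⟨β, hβ⟩ := fun h => hne (congrArg Idx.val h)
    rcases lt_or_gt_of_ne hne' with h1 | h1
    · exact Or.inl ((hlt _ _).1 h1)
    · exact Or.inr ((hlt _ _).1 h1)
  have hU : S = ⋃ n, (Idx.val '' (A n)) := by
    rw [← image_iUnion, hA]
    ext α
    constructor
    · intro hα; exact ⟨⟨α, hα⟩, mem_univ _, rfl⟩
    · rintro ⟨a, -, rfl⟩; exact a.mem
  have hS' := hS
  rw [hU, isStationary_iUnion_iff_of_countable cof_Om] at hS'
  obtain ⟨n, hn⟩ := hS'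
  obtain ⟨D, hDT, hDne, hDl, hDd⟩ := exists_dense hX htri
    (fun α hα => by obtain ⟨β, -, rfl⟩ := hα; exact β.2) hn
  -- `D` as a suborder of `A n`
  let D' : Set (A n) := {a | a.1.1 ∈ D}
  have hmem : ∀ α ∈ D, ∃ a : D', a.1.1.1 = α := by
    intro α hα
    obtain ⟨β, hβ, rfl⟩ := hDT hα
    exact ⟨⟨⟨β, hβ⟩, hα⟩, rfl⟩
  have hlt' : ∀ a b : D', a < b ↔ slt (range (x a.1.1.1)) (range (x b.1.1.1)) :=
    fun a b => hlt _ _
  have hdense : DenselyOrdered D' := by
    refine ⟨fun a b hab => ?_⟩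
    obtain ⟨γ, hγ, h1, h2⟩ := hDd a.1.1.1 a.2 b.1.1.1 b.2 ((hlt' a b).1 hab)
    obtain ⟨c, rfl⟩ := hmem γ hγ
    exact ⟨c, (hlt' a c).2 h1, (hlt' c b).2 h2⟩
  have hnt : Nontrivial D' := by
    obtain ⟨α, hα⟩ := hDne
    obtain ⟨β, hβ, h1⟩ := hDl α hα
    obtain ⟨a, rfl⟩ := hmem α hα
    obtain ⟨b, rfl⟩ := hmem β hβ
    exact ⟨b, a, ((hlt' b a).2 h1).ne⟩
  obtain ⟨e⟩ := Order.embedding_from_countable_to_dense ℚ D'
  exact (hsc n).false (e.trans (OrderEmbedding.subtype _))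

end Pool.Agent.Lib.Pf5c9aa
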