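import Mathlib
import Pool.Agent.Lib.Pf5c9aa.NonSigma

set_option autoImplicit false

open Ordinal Cardinal Set

namespace Pool.Agent.Lib.Pf5c9aa

theorem IsLadder.mono {S T : Set Om} {x : Om → ℕ → Om} (h : IsLadder S x) (hT : T ⊆ S) :
    IsLadder T x := fun α hα => h α (hT hα)

/-- under `PFA⁺`, two ladder systems on a stationary set induce the same lexicographic order on
some stationary subset -/
theorem exists_agree (hPFA : PFAPlus) {S : Set Om} (hS : IsStationary S) {x y : Om → ℕ → Om}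
    (hx : IsLadder S x) (hy : IsLadder S y) : ∃ T ⊆ S, IsStationary T ∧
      ∀ α ∈ T, ∀ β ∈ T, toLex (x α) < toLex (x β) ↔ toLex (y α) < toLex (y β) := by
  classical
  set X : Om → Set Om := fun α => range (x α) with hXdef
  set Y : Om → Set Om := fun α => range (y α) with hYdef
  have hX : LadSet S X := ladSet_of_ladder hx
  have hY : LadSet S Y := ladSet_of_ladder hy
  obtain ⟨C, hC, hgood⟩ := exists_good hX hY (subset_rfl : S ⊆ S)
  let S0 : Set Om := S ∩ C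
  have hS0 : S0 ⊆ S := fun α hα => hα.1
  have hgood' : ∀ α ∈ S0, ∀ ρ < α, ∃ i, ρ < i ∧ i < α ∧ Good X Y S α i :=
    fun α hα => hgood α hα.1 hα.2
  have hne : Nonempty (Cond X Y S0) := by
    obtain ⟨α, hα, hα'⟩ := hS hC
    exact ⟨⟨{α}, {α}, Finset.singleton_nonempty _,
      (by intro β hβ; rw [Finset.mem_singleton] at hβ; rw [hβ]; exact ⟨hα, hα'⟩),
      half_singleton X Y α α, half_singleton Y X α α⟩⟩
  obtain ⟨G, hG, -, hst⟩ := hPFA (Cond X Y S0) hne (proper_cond hX hY hS0 hne)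
    (fun _ => univ) (fun _ p => ⟨p, mem_univ _, le_rfl⟩) (nm X Y S0)
    (stationary_nm hX hY hS0 hgood' hC fun α h1 h2 => ⟨h1, h2⟩)
  have hsub : {ξ | ∃ p ∈ G, Forces (nm X Y S0) p ξ} ⊆ S := by
    rintro ξ ⟨p, -, hp⟩
    obtain ⟨r, -, a, ha, -⟩ := hp p le_rfl
    exact hS0 (a.mem ξ ha)
  refine ⟨_, hsub, hst, ?_⟩
  rintro α ⟨p, hpG, hp⟩ β ⟨q, hqG, hq⟩
  rw [lex_iff hx (hsub ⟨p, hpG, hp⟩) (hsub ⟨q, hqG, hq⟩),
    lex_iff hy (hsub ⟨p, hpG, hp⟩) (hsub ⟨q, hqG, hq⟩)]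
  obtain ⟨t, -, htp, htq⟩ := hG.dir p hpG q hqG
  obtain ⟨t1, ht1, a, ha, hta⟩ := hp t htp
  obtain ⟨t2, ht2, b, hb, htb⟩ := hq t1 (ht1.trans htq)
  have hα : α ∈ t2.s := (ht2.trans hta).1 ha
  have hβ : β ∈ t2.s := htb.1 hb
  exact ⟨t2.h.1 α hα β hβ, t2.h'.1 α hα β hβ⟩

theorem common_suborder (hPFA : PFAPlus) (S : Set Om) (hS : IsStationary S)
    (x y : Om → ℕ → Om) (hx : IsLadder S x) (hy : IsLadder S y) :
    ∃ (L : Type) (_ : LinearOrder L), ¬ SigmaScattered L ∧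
      Nonempty (L ↪o Baumgartner S x) ∧ Nonempty (L ↪o Baumgartner S y) := by
  obtain ⟨T, hTS, hT, hagree⟩ := exists_agree hPFA hS hx hy
  have hxT := hx.mono hTS
  have hyT := hy.mono hTS
  let _ := ladOrder hxT
  have hlt : ∀ a b : Idx T, a < b ↔ toLex (x a.val) < toLex (x b.val) := fun a b => Iff.rfl
  have hinj : ∀ {z : Om → ℕ → Om}, IsLadder T z → ∀ a b : Idx T,
      toLex (z a.val) = toLex (z b.val) → a = b := fun hz a b h =>
    Idx.ext' (ladder_injOn hz a.mem b.mem (toLex_inj.1 h))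
  refine ⟨Idx T, ladOrder hxT, not_sigmaScattered hxT hT, ⟨?_⟩, ⟨?_⟩⟩
  · refine OrderEmbedding.ofStrictMono
      (fun a => ⟨toLex (x a.val), a.val, hTS a.mem, rfl⟩) ?_
    intro a b hab
    exact (hlt a b).1 hab
  · refine OrderEmbedding.ofStrictMono
      (fun a => ⟨toLex (y a.val), a.val, hTS a.mem, rfl⟩) ?_
    intro a b hab
    exact (hagree a.val a.mem b.val b.mem).1 ((hlt a b).1 hab)

end Pool.Agent.Lib.Pf5c9aa
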